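import Pool.Agent.KSQ.Sq
import Pool.Agent.TFK.SIDE
import Pool.Agent.TFK.MAIN

/-!
# Counting flags: no triangular face and minimum degree four force a 4-regular quadrangulation
-/

set_option autoImplicit false

namespace KSQ

open Function KR KR.KR_CNT

variable {W Ω : Type} {G : SimpleGraph W}

theorem ge8v [Fintype W] [Finite Ω] (M : GMap G Ω) (hd : ∀ i, 4 ≤ (G.neighborSet i).ncard)
    (i : W) : 8 ≤ (Vx M i).ncard := by
  classical
  have h1 : ∀ v : G.neighborSet i, ∃ x, M.w x = i ∧ M.w (M.a0 x) = v := fun v =>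
    (M.adj _ _).1 v.2
  choose F hF1 hF2 using h1
  have h2 := hd i
  have hinj : Injective (fun vb : G.neighborSet i × Bool =>
      (⟨if vb.2 then F vb.1 else M.a2 (F vb.1), by
        by_cases h : vb.2 = true
        · simp only [h, if_true]
          exact hF1 vb.1
        · simp only [h]
          exact (M.w2 _).trans (hF1 vb.1)⟩ : Vx M i)) := by
    rintro ⟨v, b⟩ ⟨v', b'⟩ h
    have h3 := congrArg Subtype.val h
    simp only at h3
    have hend : ∀ (v : G.neighborSet i) (b : Bool),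
        M.w (M.a0 (if b then F v else M.a2 (F v))) = v := by
      intro v b
      cases b
      · simp only [Bool.false_eq_true, if_false]
        rw [M.c02, M.w2]
        exact hF2 v
      · simp only [if_true]
        exact hF2 v
    have h4 : v = v' := by
      apply Subtype.ext
      rw [← hend v b, ← hend v' b', h3]
    subst h4
    congr 1
    cases b <;> cases b'
    · rfl
    · simp only [Bool.false_eq_true, if_false, if_true] at h3
      exact absurd h3 (M.n2 _)
    · simp only [Bool.false_eq_true, if_false, if_true] at h3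
      exact absurd h3.symm (M.n2 _)
    · rfl
  have h3 := Nat.card_le_card_of_injective _ hinj
  rw [Nat.card_prod] at h3
  have h4 : Nat.card Bool = 2 := by simp
  rw [h4] at h3
  have h5 : Nat.card (G.neighborSet i) = (G.neighborSet i).ncard := rfl
  have h6 : Nat.card (Vx M i) = (Vx M i).ncard := rfl
  rw [h5, h6] at h3
  omega

/-- no face has length two -/
theorem t4v [Fintype W] [Finite Ω] (M : GMap G Ω) (hd : ∀ i, 4 ≤ (G.neighborSet i).ncard)
    (x : Ω) : M.a0 (M.a1 x) ≠ M.a1 (M.a0 x) := by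
  intro h
  have h1 : M.w (M.a0 x) = M.w (M.a0 (M.a1 x)) := by
    rw [h, M.w1]
  have h2 : M.w x = M.w (M.a1 x) := (M.w1 x).symm
  have h8 := ge8v M hd (M.w x)
  rcases M.uniq x (M.a1 x) h2 h1 with h3 | h3
  · exact M.n1 x h3
  · have := le2 (inv12 M) (orbV M x _ rfl) h3
    omega

theorem ge8f [Fintype W] [Finite Ω] (M : GMap G Ω) (hd : ∀ i, 4 ≤ (G.neighborSet i).ncard)
    (h3 : ∀ φ : M.Face, {x : Ω | Quot.mk M.Fr x = φ}.ncard ≠ 6) (φ : M.Face) :
    8 ≤ (Fx M φ).ncard := by
  classical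
  have : Fintype Ω := Fintype.ofFinite Ω
  obtain ⟨x, hx⟩ := Quot.exists_rep φ
  have h6 : 6 ≤ (Fx M φ).ncard :=
    ge6 (inv01 M) (orbF M x φ hx) (Set.toFinite _) (ne01 M x) (t4v M hd x).symm
  have hev : Even (Fx M φ).ncard := by
    rw [Set.ncard_eq_toFinset_card']
    refine even_card _ M.a0 ?_ M.i0 (n0 M)
    intro a ha
    rw [Set.mem_toFinset] at ha ⊢
    exact (mk0 M a).trans ha
  have hne : (Fx M φ).ncard ≠ 6 := h3 φ
  obtain ⟨k, hk⟩ := hev
  omega

/-- the map is a 4-regular quadrangulation -/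
theorem sq_of [Fintype W] [Finite Ω] (M : GMap G Ω) (hc : G.Connected)
    (hd : ∀ i, 4 ≤ (G.neighborSet i).ncard) (hE : M.EulerNonneg)
    (h3 : ∀ φ : M.Face, {x : Ω | Quot.mk M.Fr x = φ}.ncard ≠ 6) : Sq M := by
  classical
  have : Fintype Ω := Fintype.ofFinite Ω
  have : Finite M.Face := Quot.finite _
  have : Fintype M.Face := Fintype.ofFinite _
  have hV : Nat.card Ω = ∑ i : W, (Vx M i).ncard := by
    rw [Nat.card_eq_fintype_card, ← Finset.card_univ,
      Finset.card_eq_sum_card_fiberwise (f := M.w) (t := Finset.univ)]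
    · refine Finset.sum_congr rfl fun i _ => ?_
      rw [Set.ncard_eq_toFinset_card']
      congr 1
      ext x
      simp only [Finset.mem_filter, Finset.mem_univ, true_and, Set.mem_toFinset, Vx,
        Set.mem_ofPred_eq]
    · intro x _
      exact Finset.mem_univ _
  have hF : Nat.card Ω = ∑ φ : M.Face, (Fx M φ).ncard := by
    rw [Nat.card_eq_fintype_card, ← Finset.card_univ,
      Finset.card_eq_sum_card_fiberwise (f := fc M) (t := Finset.univ)]
    · refine Finset.sum_congr rfl fun φ _ => ?_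
      rw [Set.ncard_eq_toFinset_card']
      congr 1
      ext x
      simp only [Finset.mem_filter, Finset.mem_univ, true_and, Set.mem_toFinset, Fx,
        Set.mem_ofPred_eq]
    · intro x _
      exact Finset.mem_univ _
  have hVl : ∑ _i : W, 8 ≤ ∑ i : W, (Vx M i).ncard := Finset.sum_le_sum fun i _ => ge8v M hd i
  have hFl : ∑ _φ : M.Face, 8 ≤ ∑ φ : M.Face, (Fx M φ).ncard :=
    Finset.sum_le_sum fun φ _ => ge8f M hd h3 φ
  have cV : ∑ _i : W, 8 = 8 * Nat.card W := by
    rw [Finset.sum_const, smul_eq_mul, Finset.card_univ, ← Nat.card_eq_fintype_card, mul_comm]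
  have cF : ∑ _φ : M.Face, 8 = 8 * Nat.card M.Face := by
    rw [Finset.sum_const, smul_eq_mul, Finset.card_univ, ← Nat.card_eq_fintype_card, mul_comm]
  have hE' : Nat.card Ω ≤ 4 * (Nat.card W + Nat.card M.Face) := hE
  have eV : ∑ _i : W, 8 = ∑ i : W, (Vx M i).ncard := by omega
  have eF : ∑ _φ : M.Face, 8 = ∑ φ : M.Face, (Fx M φ).ncard := by omega
  have hVe : ∀ i, (Vx M i).ncard = 8 := fun i =>
    ((Finset.sum_eq_sum_iff_of_le fun i _ => ge8v M hd i).1 eV i (Finset.mem_univ _)).symm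
  have hFe : ∀ φ, (Fx M φ).ncard = 8 := fun φ =>
    ((Finset.sum_eq_sum_iff_of_le fun φ _ => ge8f M hd h3 φ).1 eF φ (Finset.mem_univ _)).symm
  exact ⟨fun x => (eq8 (inv01 M) (orbF M x _ rfl) (Set.toFinite _) (hFe _)).1,
    fun x => (eq8 (inv01 M) (orbF M x _ rfl) (Set.toFinite _) (hFe _)).2,
    fun x => (eq8 (inv12 M) (orbV M x _ rfl) (Set.toFinite _) (hVe _)).1,
    fun x => (eq8 (inv12 M) (orbV M x _ rfl) (Set.toFinite _) (hVe _)).2,
    fun g h0 h1 h2 x y hx => Pool.Agent.TFK.SIDE.conn_all M hc g h0 h1 h2 x y hx⟩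

/-- the main theorem -/
theorem main [Fintype W] [DecidableEq W] [Finite Ω] (M : GMap G Ω) (hc : G.Connected)
    (hd : ∀ i, 4 ≤ (G.neighborSet i).ncard) (hE : M.EulerNonneg)
    (h3 : ∀ φ : M.Face, {x : Ω | Quot.mk M.Fr x = φ}.ncard ≠ 6) : G.IsHamiltonian := by
  have hS := sq_of M hc hd hE h3
  have hs : ∀ u, ∃ y, M.w y = u := by
    intro u
    have h1 := hd u
    have h2 : (G.neighborSet u).Nonempty := by
      rw [← Set.ncard_pos (Set.toFinite _)]
      omega
    obtain ⟨v, hv⟩ := h2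
    obtain ⟨x, hx, -⟩ := (M.adj u v).1 hv
    exact ⟨x, hx⟩
  obtain ⟨u⟩ := hc.nonempty
  obtain ⟨x, -⟩ := hs u
  exact ham hS hs x

/-- a face with six flags is a triangle of the graph -/
theorem no_six [Fintype W] [Finite Ω] (M : GMap G Ω) (h3 : G.CliqueFree 3) (φ : M.Face) :
    {x : Ω | Quot.mk M.Fr x = φ}.ncard ≠ 6 := by
  classical
  intro h
  obtain ⟨x, hx⟩ := Quot.exists_rep φ
  have h1 := eq6 (inv01 M) (orbF M x φ hx) (Set.toFinite _) h
  have e1 : M.w (M.a0 (M.a1 (M.a0 x))) = M.w (M.a0 (M.a1 x)) := by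
    rw [← h1, M.w1]
  have a1 : G.Adj (M.w x) (M.w (M.a0 x)) := gadj M x
  have a2 : G.Adj (M.w (M.a0 x)) (M.w (M.a0 (M.a1 x))) := by
    rw [← e1, ← M.w1 (M.a0 x)]
    exact gadj M _
  have a3 : G.Adj (M.w x) (M.w (M.a0 (M.a1 x))) := by
    rw [← M.w1 x]
    exact gadj M _
  exact h3 {M.w x, M.w (M.a0 x), M.w (M.a0 (M.a1 x))}
    (SimpleGraph.is3Clique_triple_iff.2 ⟨a1, a3, a2⟩)

/-- 4-connected triangle-free graphs -/
theorem main4 [Fintype W] [DecidableEq W] [Finite Ω] (M : GMap G Ω) (hG : FourConn G)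
    (hE : M.EulerNonneg) (h3 : G.CliqueFree 3) : G.IsHamiltonian :=
  main M (Pool.Agent.TFK.MAIN.connected_of_four hG) (fun i => deg4 hG i) hE (no_six M h3)

end KSQ
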