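import Pool.Agent.KSQ.Cyc

/-!
# Columns (project KSQ)

`C`, `S` commuting permutations of the finite set `Ω`, `e` an involution (glide reflection),
`w : Ω → W` identifies `y` and `e y` only (on the orbit of `x₀`). Then the values
`w (C^m S^k x₀)`, `0 ≤ k < N`, form rows in the sense of `Rows`.
-/

set_option autoImplicit false

namespace KSQ

open Function

/-- the hypotheses -/
structure Colm {Ω W : Type} (w : Ω → W) (C S e : Equiv.Perm Ω) (x₀ : Ω) : Prop where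
  cs : Commute C S
  ee : e * e = 1
  ec : e * C = C⁻¹ * e
  es : ∃ ε : ℤ, e * S = C ^ ε * S * e
  we : ∀ y, w (e y) = w y
  h4 : ∀ m k m' k' : ℤ, w ((C ^ m * S ^ k) x₀) = w ((C ^ m' * S ^ k') x₀) →
    (C ^ m' * S ^ k') x₀ = (C ^ m * S ^ k) x₀ ∨ (C ^ m' * S ^ k') x₀ = e ((C ^ m * S ^ k) x₀)
  h5 : ∀ m k : ℤ, e ((C ^ m * S ^ k) x₀) ≠ (C ^ m * S ^ k) x₀ ∧
    e ((C ^ m * S ^ k) x₀) ≠ C ((C ^ m * S ^ k) x₀)
  h6 : ∀ u : W, ∃ m k : ℤ, w ((C ^ m * S ^ k) x₀) = u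

namespace Colm

variable {Ω W : Type} {w : Ω → W} {C S e : Equiv.Perm Ω} {x₀ : Ω}

theorem ecz (h : Colm w C S e x₀) (m : ℤ) : e * C ^ m = C ^ (-m) * e := by
  have h1 : SemiconjBy e C C⁻¹ := h.ec
  have h2 := h1.zpow_right m
  rw [inv_zpow', ] at h2
  exact h2

/-- `C^m y` and `y` are different for `w` unless they are equal -/
theorem inj (h : Colm w C S e x₀) (m k m' : ℤ)
    (hw : w ((C ^ m' * S ^ k) x₀) = w ((C ^ m * S ^ k) x₀)) :
    (C ^ m' * S ^ k) x₀ = (C ^ m * S ^ k) x₀ := by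
  rcases h.h4 m k m' k hw.symm with h1 | h1
  · exact h1
  · exfalso
    obtain ⟨l, hl⟩ : ∃ l : ℤ, m' - m = 2 * l ∨ m' - m = 2 * l + 1 :=
      ⟨(m' - m) / 2, by omega⟩
    have h2 : e ((C ^ (m + l) * S ^ k) x₀) = (C ^ (m' - l) * S ^ k) x₀ := by
      have e1 : C ^ (m + l) * S ^ k = C ^ l * (C ^ m * S ^ k) := by
        rw [← mul_assoc, ← zpow_add, add_comm]
      have e2 : C ^ (m' - l) * S ^ k = C ^ (-l) * (C ^ m' * S ^ k) := by
        rw [← mul_assoc, ← zpow_add]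
        congr 2
        ring
      rw [e1, e2]
      change e ((C ^ l) ((C ^ m * S ^ k) x₀)) = (C ^ (-l)) ((C ^ m' * S ^ k) x₀)
      rw [h1]
      change (e * C ^ l) ((C ^ m * S ^ k) x₀) = (C ^ (-l) * e) ((C ^ m * S ^ k) x₀)
      rw [h.ecz]
    rcases hl with hl | hl
    · refine (h.h5 (m + l) k).1 ?_
      rw [h2]
      congr 3
      omega
    · refine (h.h5 (m + l) k).2 ?_
      rw [h2, ← Equiv.Perm.mul_apply, ← mul_assoc, ← zpow_one_add]
      congr 3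
      omega

/-- `S^j e x₀ = C^b e S^j x₀` -/
theorem se (h : Colm w C S e x₀) (j : ℕ) : ∃ b : ℤ, S ^ j * e = C ^ b * e * S ^ j := by
  obtain ⟨ε, hε⟩ := h.es
  have h1 : S * e = C ^ (-ε) * e * S := by
    rw [mul_assoc, hε, ← mul_assoc, ← mul_assoc, ← zpow_add, neg_add_cancel, zpow_zero, one_mul]
  induction j with
  | zero => exact ⟨0, by simp⟩
  | succ j ih =>
    obtain ⟨b, hb⟩ := ih
    refine ⟨b - ε, ?_⟩
    have hcs : Commute S (C ^ b) := (h.cs.symm).zpow_right b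
    calc S ^ (j + 1) * e = S * (S ^ j * e) := by rw [pow_succ', mul_assoc]
      _ = S * (C ^ b * e * S ^ j) := by rw [hb]
      _ = (S * C ^ b) * e * S ^ j := by simp only [mul_assoc]
      _ = (C ^ b * S) * e * S ^ j := by rw [hcs.eq]
      _ = C ^ b * (S * e) * S ^ j := by simp only [mul_assoc]
      _ = C ^ b * (C ^ (-ε) * e * S) * S ^ j := by rw [h1]
      _ = (C ^ b * C ^ (-ε)) * e * (S * S ^ j) := by simp only [mul_assoc]
      _ = C ^ (b - ε) * e * S ^ (j + 1) := by rw [← zpow_add, ← pow_succ', sub_eq_add_neg]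

/-- the rows -/
theorem rows [Finite Ω] (h : Colm w C S e x₀) : ∃ s N : ℕ, 1 ≤ N ∧
    Rows s N (fun k m => w ((C ^ m * S ^ (k : ℤ)) x₀)) ∧
    (∀ m : ℤ, (C ^ m) x₀ = x₀ ↔ (s : ℤ) ∣ m) ∧
    (∃ a : ℤ, (S ^ (N : ℤ)) x₀ = (C ^ a) x₀ ∨ (S ^ (N : ℤ)) x₀ = (C ^ a) (e x₀)) ∧
    (∀ k : ℕ, 0 < k → k < N → ∀ a : ℤ, (S ^ (k : ℤ)) x₀ ≠ (C ^ a) x₀ ∧
      (S ^ (k : ℤ)) x₀ ≠ (C ^ a) (e x₀)) := by
  classical
  -- the period of `C`
  set s := minimalPeriod (C • ·) x₀ with hs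
  have hdvd : ∀ m : ℤ, (C ^ m) x₀ = x₀ ↔ (s : ℤ) ∣ m := by
    intro m
    have h1 := MulAction.zpow_smul_eq_iff_minimalPeriod_dvd (a := C) (b := x₀) (n := m)
    rw [← hs] at h1
    exact h1
  have hs1 : 1 ≤ s := by
    have h1 := isOfFinOrder_of_finite C
    have h2 : (C ^ (orderOf C : ℤ)) x₀ = x₀ := by
      rw [zpow_natCast, pow_orderOf_eq_one]
      rfl
    have h3 := (hdvd _).1 h2
    have h4 : 0 < orderOf C := orderOf_pos C
    rcases Nat.eq_zero_or_pos s with h0 | h0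
    · rw [h0] at h3
      simp only [Nat.cast_zero, zero_dvd_iff] at h3
      omega
    · exact h0
  -- periods at other points
  have hper : ∀ (m k a : ℤ), (C ^ (a + m) * S ^ k) x₀ = (C ^ m * S ^ k) x₀ ↔ (s : ℤ) ∣ a := by
    intro m k a
    rw [← hdvd]
    have e1 : C ^ (a + m) * S ^ k = (C ^ m * S ^ k) * C ^ a := by
      have h1 : Commute (C ^ a) (S ^ k) := (h.cs.zpow_left a).zpow_right k
      rw [add_comm, zpow_add, mul_assoc, h1.eq, mul_assoc]
    rw [e1, Equiv.Perm.mul_apply]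
    exact (C ^ m * S ^ k).injective.eq_iff
  -- the number of rows
  have hex : ∃ k : ℕ, 0 < k ∧ ∃ a : ℤ, w ((S ^ (k : ℤ)) x₀) = w ((C ^ a) x₀) := by
    refine ⟨orderOf S, orderOf_pos S, 0, ?_⟩
    rw [zpow_natCast, pow_orderOf_eq_one, zpow_zero]
  set N := Nat.find hex with hN
  obtain ⟨hN1, a, ha⟩ := Nat.find_spec hex
  rw [← hN] at hN1 ha
  have hmin : ∀ k : ℕ, 0 < k → k < N → ∀ a : ℤ, w ((S ^ (k : ℤ)) x₀) ≠ w ((C ^ a) x₀) := by
    intro k h1 h2 b hb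
    exact Nat.find_min hex h2 ⟨h1, b, hb⟩
  have hwe : ∀ b : ℤ, w ((C ^ b) (e x₀)) = w ((C ^ (-b)) x₀) := by
    intro b
    rw [← h.we ((C ^ (-b)) x₀), ← Equiv.Perm.mul_apply e, h.ecz, neg_neg, Equiv.Perm.mul_apply]
  have hglue : ∃ a : ℤ, (S ^ (N : ℤ)) x₀ = (C ^ a) x₀ ∨ (S ^ (N : ℤ)) x₀ = (C ^ a) (e x₀) := by
    have h1 := h.h4 a 0 0 N (by simpa using ha.symm)
    simp only [zpow_zero, mul_one, one_mul] at h1
    rcases h1 with h1 | h1
    · exact ⟨a, Or.inl h1⟩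
    · refine ⟨-a, Or.inr ?_⟩
      rw [h1, ← Equiv.Perm.mul_apply, h.ecz, Equiv.Perm.mul_apply]
  have hne : ∀ k : ℕ, 0 < k → k < N → ∀ a : ℤ, (S ^ (k : ℤ)) x₀ ≠ (C ^ a) x₀ ∧
      (S ^ (k : ℤ)) x₀ ≠ (C ^ a) (e x₀) := by
    intro k h1 h2 b
    refine ⟨fun h3 => hmin k h1 h2 b (by rw [h3]), fun h3 => hmin k h1 h2 (-b) ?_⟩
    rw [h3, hwe]
  -- different rows
  have hrow : ∀ k k' : ℕ, k < k' → k' < N → ∀ m m' : ℤ,
      w ((C ^ m * S ^ (k : ℤ)) x₀) ≠ w ((C ^ m' * S ^ (k' : ℤ)) x₀) := by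
    intro k k' hk hk' m m' hw
    obtain ⟨b, hb⟩ := h.se k
    have hk2 : (k' : ℤ) = ((k' - k : ℕ) : ℤ) + k := by omega
    have hcomm : ∀ (p q : ℤ), Commute (C ^ p) (S ^ q) := fun p q =>
      (h.cs.zpow_left p).zpow_right q
    rcases h.h4 m k m' k' hw with h1 | h1
    · -- translation
      have h2 : (S ^ (k : ℤ)) ((S ^ ((k' - k : ℕ) : ℤ)) x₀) = (S ^ (k : ℤ)) ((C ^ (m - m')) x₀) := by
        have h3 : (C ^ (-m')) ((C ^ m' * S ^ (k' : ℤ)) x₀) =
            (C ^ (-m')) ((C ^ m * S ^ (k : ℤ)) x₀) := by rw [h1]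
        rw [← Equiv.Perm.mul_apply, ← Equiv.Perm.mul_apply, ← mul_assoc, ← mul_assoc, ← zpow_add,
          ← zpow_add, neg_add_cancel, zpow_zero, one_mul, hk2, zpow_add,
          ← (Commute.refl S).zpow_zpow (k : ℤ) ((k' - k : ℕ) : ℤ) |>.eq, (hcomm _ _).eq] at h3
        rw [← Equiv.Perm.mul_apply, ← Equiv.Perm.mul_apply, h3]
        congr 3
        ring
      exact (hne (k' - k) (by omega) (by omega) (m - m')).1 ((S ^ (k : ℤ)).injective h2)
    · -- glide reflection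
      have hb' : S ^ (k : ℤ) * e = C ^ b * e * S ^ (k : ℤ) := by
        rw [zpow_natCast]
        exact hb
      have h2 : (S ^ (k : ℤ)) ((S ^ ((k' - k : ℕ) : ℤ)) x₀) =
          (S ^ (k : ℤ)) ((C ^ (-m' - m - b)) (e x₀)) := by
        have h3 : (C ^ (-m')) ((C ^ m' * S ^ (k' : ℤ)) x₀) =
            (C ^ (-m')) (e ((C ^ m * S ^ (k : ℤ)) x₀)) := by rw [h1]
        rw [← Equiv.Perm.mul_apply, ← mul_assoc, ← zpow_add, neg_add_cancel, zpow_zero, one_mul,
          hk2, zpow_add, ← (Commute.refl S).zpow_zpow (k : ℤ) ((k' - k : ℕ) : ℤ) |>.eq] at h3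
        rw [← Equiv.Perm.mul_apply, h3]
        have e1 : (C ^ (-m')) (e ((C ^ m * S ^ (k : ℤ)) x₀)) =
            (C ^ (-m') * (e * C ^ m) * S ^ (k : ℤ)) x₀ := by
          simp only [Equiv.Perm.mul_apply]
        have e2 : (S ^ (k : ℤ)) ((C ^ (-m' - m - b)) (e x₀)) =
            (S ^ (k : ℤ) * C ^ (-m' - m - b) * e) x₀ := by
          simp only [Equiv.Perm.mul_apply]
        rw [e1, e2, h.ecz, ← (hcomm _ _).eq, mul_assoc (C ^ (-m' - m - b)), hb']
        congr 1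
        rw [← mul_assoc, ← zpow_add, ← mul_assoc, ← mul_assoc, ← zpow_add]
        congr 3
        ring
      exact (hne (k' - k) (by omega) (by omega) (-m' - m - b)).2 ((S ^ (k : ℤ)).injective h2)
  refine ⟨s, N, hN1, ⟨hs1, ?_, ?_, ?_⟩, hdvd, hglue, hne⟩
  · intro k hk k' hk' m m' hw
    have hkk : k = k' := by
      by_contra hkk
      rcases Nat.lt_or_gt_of_ne hkk with h1 | h1
      · exact hrow k k' h1 hk' m m' hw
      · exact hrow k' k h1 hk m' m hw.symm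
    refine ⟨hkk, ?_⟩
    subst hkk
    have h1 := h.inj m k m' hw.symm
    rw [← hper m k (m' - m), sub_add_cancel]
    exact h1
  · intro k _ m m' hd
    have h1 := (hper m k (m' - m)).2 hd
    rw [sub_add_cancel] at h1
    simp only [h1]
  · -- surjectivity
    have key : ∀ n : ℕ, ∀ m : ℤ, ∃ k < N, ∃ m' : ℤ,
        w ((C ^ m' * S ^ (k : ℤ)) x₀) = w ((C ^ m * S ^ (n : ℤ)) x₀) := by
      intro n
      induction n using Nat.strong_induction_on with
      | _ n ih =>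
        intro m
        rcases Nat.lt_or_ge n N with h1 | h1
        · exact ⟨n, h1, m, rfl⟩
        · obtain ⟨a, ha⟩ := hglue
          have hn : (n : ℤ) = ((n - N : ℕ) : ℤ) + N := by omega
          have hcomm : ∀ (p q : ℤ), Commute (C ^ p) (S ^ q) := fun p q =>
            (h.cs.zpow_left p).zpow_right q
          have e0 : (C ^ m * S ^ (n : ℤ)) x₀ =
              (C ^ m * S ^ ((n - N : ℕ) : ℤ)) ((S ^ (N : ℤ)) x₀) := by
            rw [hn, zpow_add]
            simp only [Equiv.Perm.mul_apply]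
          rcases ha with ha | ha
          · obtain ⟨k, hk, m', hm'⟩ := ih (n - N) (by omega) (m + a)
            refine ⟨k, hk, m', ?_⟩
            rw [hm', e0, ha]
            congr 1
            rw [← Equiv.Perm.mul_apply, zpow_add, mul_assoc, mul_assoc, (hcomm _ _).eq]
          · obtain ⟨b, hb⟩ := h.se (n - N)
            obtain ⟨k, hk, m', hm'⟩ := ih (n - N) (by omega) (-(m + a + b))
            refine ⟨k, hk, m', ?_⟩
            have hb' : S ^ ((n - N : ℕ) : ℤ) * e = C ^ b * e * S ^ ((n - N : ℕ) : ℤ) := by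
              rw [zpow_natCast]
              exact hb
            rw [hm', ← h.we, e0, ha]
            congr 1
            have e1 : e ((C ^ (-(m + a + b)) * S ^ ((n - N : ℕ) : ℤ)) x₀) =
                (e * C ^ (-(m + a + b)) * S ^ ((n - N : ℕ) : ℤ)) x₀ := by
              simp only [Equiv.Perm.mul_apply]
            have e2 : (C ^ m * S ^ ((n - N : ℕ) : ℤ)) ((C ^ a) (e x₀)) =
                (C ^ m * (S ^ ((n - N : ℕ) : ℤ) * C ^ a) * e) x₀ := by
              simp only [Equiv.Perm.mul_apply]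
            rw [e1, e2, h.ecz, neg_neg, ← (hcomm _ _).eq, mul_assoc (C ^ m), mul_assoc (C ^ a), hb']
            congr 1
            rw [← mul_assoc, ← mul_assoc, ← mul_assoc, ← zpow_add, ← zpow_add]
    intro u
    obtain ⟨m, k, hu⟩ := h.h6 u
    obtain ⟨n, hn⟩ : ∃ n : ℕ, S ^ n = S ^ k := by
      have h1 : S ^ k ∈ Subgroup.zpowers S := ⟨k, rfl⟩
      rw [← mem_powers_iff_mem_zpowers] at h1
      exact h1
    obtain ⟨k', hk', m', hm'⟩ := key n m
    refine ⟨k', hk', m', ?_⟩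
    rw [← hu, hm', zpow_natCast, hn]

end Colm

end KSQ
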