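import Mathlib
import Pool.Agent.KB.KB_HC

/-!
# Hamilton cycles from lists (project KSQ for MP_b1567b_co)

Two families: grids `C_s □ P_N`, and the twisted bands that come from a diagonal glide reflection.
-/

set_option autoImplicit false

namespace KSQ

open Function

section Lists

variable {α : Type} {G : SimpleGraph α}

/-- `l` is a path of `G` from `a` to `b` (as a list of vertices). -/
structure PL (G : SimpleGraph α) (l : List α) (a b : α) : Prop where
  ch : l.IsChain G.Adj
  nd : l.Nodup
  hd : l.head? = some a
  la : l.getLast? = some b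

theorem PL.ne {l : List α} {a b : α} (h : PL G l a b) : l ≠ [] := by
  rintro rfl
  simpa using h.hd

theorem PL.single (a : α) : PL G [a] a a := ⟨List.isChain_singleton a, by simp, by simp, by simp⟩

theorem PL.append {l l' : List α} {a b a' b' : α} (h : PL G l a b) (h' : PL G l' a' b')
    (hadj : G.Adj b a') (hdis : ∀ x ∈ l, x ∉ l') : PL G (l ++ l') a b' := by
  refine ⟨?_, ?_, ?_, ?_⟩
  · rw [List.isChain_append]
    refine ⟨h.ch, h'.ch, ?_⟩
    intro x hx y hy
    rw [h.la] at hx
    rw [h'.hd] at hy
    simp only [Option.mem_def, Option.some.injEq] at hx hy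
    subst hx hy
    exact hadj
  · rw [List.nodup_append]
    refine ⟨h.nd, h'.nd, ?_⟩
    intro x hx y hy hxy
    subst hxy
    exact hdis x hx hy
  · rw [List.head?_append, h.hd]
    rfl
  · rw [List.getLast?_append, h'.la]
    rfl

theorem PL.reverse {l : List α} {a b : α} (h : PL G l a b) : PL G l.reverse b a := by
  refine ⟨?_, List.nodup_reverse.2 h.nd, ?_, ?_⟩
  · rw [List.isChain_reverse]
    exact h.ch.imp fun x y hxy => hxy.symm
  · rw [List.head?_reverse, h.la]
  · rw [List.getLast?_reverse, h.hd]

/-- a segment `u 0, …, u k` -/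
theorem PL.range (u : ℕ → α) (k : ℕ) (hadj : ∀ i < k, G.Adj (u i) (u (i + 1)))
    (hinj : ∀ i ≤ k, ∀ j ≤ k, u i = u j → i = j) :
    PL G ((List.range (k + 1)).map u) (u 0) (u k) := by
  induction k with
  | zero => simpa using PL.single (G := G) (u 0)
  | succ k ih =>
    have h1 := ih (fun i hi => hadj i (by omega)) (fun i hi j hj => hinj i (by omega) j (by omega))
    rw [List.range_succ, List.map_append]
    refine h1.append (PL.single _) (hadj k (by omega)) ?_
    intro x hx hx'
    rw [List.mem_map] at hx
    obtain ⟨i, hi, rfl⟩ := hx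
    rw [List.mem_range] at hi
    simp only [List.map_cons, List.map_nil, List.mem_singleton] at hx'
    have := hinj i (by omega) (k + 1) le_rfl hx'
    omega

/-- a closed path through all vertices is a Hamilton cycle -/
theorem PL.ham [DecidableEq α] [Fintype α] {l : List α} {a b : α} (h : PL G l a b)
    (hadj : G.Adj b a) (hall : ∀ x, x ∈ l) (h3 : 3 ≤ l.length) : G.IsHamiltonian := by
  have hget : ∀ i (hi : i < l.length), l.getD i a = l[i] := fun i hi =>
    List.getD_eq_getElem l a hi
  refine KB.KB_HC.isHam (fun i => l.getD i a) l.length h3 ?_ ?_ ?_ ?_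
  · intro i hi
    rw [hget i (by omega), hget (i + 1) hi]
    exact List.isChain_iff_getElem.1 h.ch i hi
  · rw [hget (l.length - 1) (by omega), hget 0 (by omega)]
    have e1 : l[l.length - 1] = b := by
      have := h.la
      rw [List.getLast?_eq_getElem?, List.getElem?_eq_getElem (by omega)] at this
      exact Option.some.inj this
    have e2 : l[0] = a := by
      have := h.hd
      rw [List.head?_eq_getElem?, List.getElem?_eq_getElem (by omega)] at this
      exact Option.some.inj this
    rw [e1, e2]
    exact hadj
  · intro i hi j hj hij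
    rw [hget i hi, hget j hj] at hij
    exact (h.nd.getElem_inj_iff).1 hij
  · rw [← List.toFinset_card_of_nodup h.nd, ← Finset.card_univ]
    congr 1
    symm
    rw [Finset.eq_univ_iff_forall]
    intro x
    exact List.mem_toFinset.2 (hall x)

end Lists

section Fam

variable {α : Type} {G : SimpleGraph α} {s N : ℕ} {v : ℕ → ℤ → α}

/-- the rows `0, …, N - 1` are cyclic of length `s`, all entries are different, and they are all
the elements -/
structure Rows (s N : ℕ) (v : ℕ → ℤ → α) : Prop where
  s1 : 1 ≤ s
  inj : ∀ k < N, ∀ k' < N, ∀ m m' : ℤ, v k m = v k' m' → k = k' ∧ (s : ℤ) ∣ m' - m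
  per : ∀ k < N, ∀ m m' : ℤ, (s : ℤ) ∣ m' - m → v k m = v k m'
  sur : ∀ x, ∃ k < N, ∃ m, v k m = x

theorem Rows.ex (h : Rows s N v) {k : ℕ} (hk : k < N) (c m : ℤ) : ∃ i : ℕ, i < s ∧
    v k (c + i) = v k m := by
  have hs : (0 : ℤ) < s := by exact_mod_cast h.s1
  refine ⟨((m - c) % s).toNat, ?_, ?_⟩
  · have h1 := Int.emod_nonneg (m - c) hs.ne'
    have h2 := Int.emod_lt_of_pos (m - c) hs
    omega
  · apply h.per k hk
    have h1 := Int.emod_nonneg (m - c) hs.ne'
    rw [Int.toNat_of_nonneg h1]
    have h3 := Int.emod_add_mul_ediv (m - c) s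
    refine ⟨(m - c) / s, ?_⟩
    linarith

theorem dvd_small {s : ℕ} {x : ℤ} (h : (s : ℤ) ∣ x) (h1 : -(s : ℤ) < x) (h2 : x < s) : x = 0 :=
  Int.eq_zero_of_abs_lt_dvd h (abs_lt.2 ⟨h1, h2⟩)

/-- `C_s □ P_N` is Hamiltonian -/
theorem grid [DecidableEq α] [Fintype α] (h : Rows s N v) (hs : 3 ≤ s) (hN : 1 ≤ N)
    (hv : ∀ k < N, ∀ m, G.Adj (v k m) (v k (m + 1)))
    (hh : ∀ k m, k + 1 < N → G.Adj (v k m) (v (k + 1) m)) : G.IsHamiltonian := by
  have key : ∀ K < N, ∃ (l : List α) (a : ℤ), PL G l (v K (a + 1)) (v K a) ∧
      ∀ x, x ∈ l ↔ ∃ k ≤ K, ∃ m, v k m = x := by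
    intro K
    induction K with
    | zero =>
      intro hK
      refine ⟨(List.range (s - 1 + 1)).map (fun i : ℕ => v 0 (1 + (i : ℤ))), 0, ?_, ?_⟩
      · have h1 := PL.range (G := G) (fun i : ℕ => v 0 (1 + i)) (s - 1) (fun i _ => by
            have := hv 0 hK (1 + i)
            convert this using 2
            push_cast
            ring) (fun i hi j hj hij => by
            have h2 := (h.inj 0 hK 0 hK _ _ hij).2
            have h3 := dvd_small h2 (by omega) (by omega)
            omega)
        have e1 : v 0 (1 + ((s - 1 : ℕ) : ℤ)) = v 0 0 := h.per 0 hK _ _ ⟨-1, by omega⟩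
        rw [e1] at h1
        simpa using h1
      · intro x
        constructor
        · intro hx
          obtain ⟨i, -, hi⟩ := List.mem_map.1 hx
          exact ⟨0, le_rfl, _, hi⟩
        · rintro ⟨k, hk, m, rfl⟩
          obtain rfl : k = 0 := by omega
          obtain ⟨i, hi, he⟩ := h.ex hK 1 m
          exact List.mem_map.2 ⟨i, List.mem_range.2 (by omega), he⟩
    | succ K ih =>
      intro hK
      obtain ⟨l, a, hl, hm⟩ := ih (by omega)
      have h1 := PL.range (G := G) (fun i : ℕ => v (K + 1) (a + 1 + i)) (s - 2) (fun i _ => by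
            have := hv (K + 1) hK (a + 1 + i)
            convert this using 2
            push_cast
            ring) (fun i hi j hj hij => by
            have h2 := (h.inj _ hK _ hK _ _ hij).2
            have h3 := dvd_small h2 (by omega) (by omega)
            omega)
      have e1 : v (K + 1) (a + 1 + ((s - 2 : ℕ) : ℤ)) = v (K + 1) (a - 1) :=
        h.per _ hK _ _ ⟨-1, by omega⟩
      rw [e1] at h1
      have hr := hl.reverse
      have h2 : PL G ([v (K + 1) a] ++ l.reverse ++
          (List.range (s - 2 + 1)).map (fun i : ℕ => v (K + 1) (a + 1 + i))) (v (K + 1) a)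
          (v (K + 1) (a - 1)) := by
        refine ((PL.single _).append hr (hh K a hK).symm ?_).append h1 ?_ ?_
        · intro x hx hx'
          rw [List.mem_singleton] at hx
          rw [List.mem_reverse, hm] at hx'
          obtain ⟨k, hk, m, he⟩ := hx'
          rw [hx] at he
          have := (h.inj k (by omega) (K + 1) hK _ _ he).1
          omega
        · have := hh K (a + 1) hK
          simpa using this
        · intro x hx hx'
          obtain ⟨i, hi, hxi⟩ := List.mem_map.1 hx'
          rw [List.mem_range] at hi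
          rw [List.mem_append, List.mem_singleton, List.mem_reverse, hm] at hx
          rcases hx with hx | ⟨k, hk, m, he⟩
          · rw [hx] at hxi
            have h2 := (h.inj _ hK _ hK _ _ hxi).2
            have h3 := dvd_small h2 (by omega) (by omega)
            omega
          · rw [← hxi] at he
            have := (h.inj k (by omega) (K + 1) hK _ _ he).1
            omega
      refine ⟨_, a - 1, by
        rw [sub_add_cancel]
        exact h2, ?_⟩
      intro x
      rw [List.mem_append, List.mem_append, List.mem_singleton, List.mem_reverse, hm]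
      constructor
      · rintro ((hx | ⟨k, hk, m, he⟩) | hx)
        · exact ⟨K + 1, le_rfl, a, hx.symm⟩
        · exact ⟨k, by omega, m, he⟩
        · obtain ⟨i, -, hi⟩ := List.mem_map.1 hx
          exact ⟨K + 1, le_rfl, _, hi⟩
      · rintro ⟨k, hk, m, he⟩
        rcases Nat.lt_or_ge k (K + 1) with hk' | hk'
        · exact Or.inl (Or.inr ⟨k, by omega, m, he⟩)
        · obtain rfl : k = K + 1 := by omega
          obtain ⟨i, hi, hi'⟩ := h.ex hK a m
          rcases Nat.eq_zero_or_pos i with h0 | h0
          · left
            left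
            rw [← he, ← hi', h0]
            simp
          · right
            refine List.mem_map.2 ⟨i - 1, List.mem_range.2 (by omega), ?_⟩
            rw [← he, ← hi']
            congr 1
            omega
  obtain ⟨l, a, hl, hm⟩ := key (N - 1) (by omega)
  have hall : ∀ x, x ∈ l := by
    intro x
    obtain ⟨k, hk, m, hx⟩ := h.sur x
    exact (hm x).2 ⟨k, by omega, m, hx⟩
  refine hl.ham (hv (N - 1) (by omega) a) hall ?_
  have hsub : ([v 0 0, v 0 1, v 0 2] : List α) ⊆ l := fun x _ => hall x
  have hnd : ([v 0 0, v 0 1, v 0 2] : List α).Nodup := by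
    have hne : ∀ m m' : ℤ, -(s : ℤ) < m' - m → m' - m < s → m ≠ m' → v 0 m ≠ v 0 m' := by
      intro m m' h1 h2 h3 h4
      have h5 := dvd_small (h.inj 0 (by omega) 0 (by omega) m m' h4).2 h1 h2
      omega
    simp only [List.nodup_cons, List.mem_cons, List.not_mem_nil, or_false, not_or,
      List.nodup_nil, not_false_eq_true, and_true]
    exact ⟨⟨hne 0 1 (by omega) (by omega) (by omega), hne 0 2 (by omega) (by omega) (by omega)⟩,
      hne 1 2 (by omega) (by omega) (by omega)⟩
  have := (hnd.subperm hsub).length_le
  simpa using this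

end Fam

end KSQ
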