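import Pool.Agent.KSQ.Cyc

/-!
# The twisted band is Hamiltonian (project KSQ)

Rows `0, …, N - 1`, cyclic of length `s`; `(k, m)` is adjacent to `(k + 1, m)` and, for `k < 2`, to
`(k + 1, m + 1)`; row `N` is row `0` reflected: `(N, m) = (0, c - m)`.
-/

set_option autoImplicit false

namespace KSQ

open Function

section Tw

variable {α : Type} {G : SimpleGraph α} {s N : ℕ} {v : ℕ → ℤ → α}

/-- the class of `x` is `j` -/
def Cl (N : ℕ) (v : ℕ → ℤ → α) (c : ℤ) (j : ℤ) (x : α) : Prop :=
  ∃ k < N, v k j = x ∨ v k (c - j) = x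

/-- the twisted bands -/
structure Twd (G : SimpleGraph α) (s N : ℕ) (v : ℕ → ℤ → α) (c : ℤ) : Prop where
  rows : Rows s N v
  hN : 3 ≤ N
  a0 : ∀ k m, k + 1 < N → G.Adj (v k m) (v (k + 1) m)
  a1 : ∀ k m, k < 2 → G.Adj (v k m) (v (k + 1) (m + 1))
  ag : ∀ m, G.Adj (v (N - 1) m) (v 0 (c - m))

variable {c : ℤ}

/-- vertical segment of column `j` -/
theorem Twd.seg (h : Twd G s N v c) (j : ℤ) {k₀ : ℕ} (hk : k₀ < N) :
    PL G ((List.range (N - k₀)).map (fun i => v (k₀ + i) j)) (v k₀ j) (v (N - 1) j) := by
  have h1 := PL.range (G := G) (fun i => v (k₀ + i) j) (N - 1 - k₀)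
    (fun i hi => h.a0 (k₀ + i) j (by omega))
    (fun i hi i' hi' he => by
      have := (h.rows.inj _ (by omega) _ (by omega) _ _ he).1
      omega)
  have e1 : N - 1 - k₀ + 1 = N - k₀ := by omega
  have e2 : k₀ + (N - 1 - k₀) = N - 1 := by omega
  rw [e1] at h1
  simp only [e2, Nat.add_zero] at h1
  exact h1

theorem mem_seg {j : ℤ} {k₀ : ℕ} (hk : k₀ < N) (x : α) :
    x ∈ (List.range (N - k₀)).map (fun i => v (k₀ + i) j) ↔ ∃ k, k₀ ≤ k ∧ k < N ∧ v k j = x := by
  rw [List.mem_map]
  constructor
  · rintro ⟨i, hi, he⟩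
    rw [List.mem_range] at hi
    exact ⟨k₀ + i, by omega, by omega, he⟩
  · rintro ⟨k, h1, h2, he⟩
    refine ⟨k - k₀, List.mem_range.2 (by omega), ?_⟩
    rw [← he]
    congr 1
    omega

/-- the path through the class `j` from `v 2 j` to `v 0 j`, all but `v 1 j` -/
theorem Twd.P (h : Twd G s N v c) (j : ℤ) : ∃ l : List α, PL G l (v 2 j) (v 0 j) ∧
    ∀ x, x ∈ l ↔ (Cl N v c j x ∧ x ≠ v 1 j) := by
  have hN := h.hN
  have h2 := h.seg j (k₀ := 2) (by omega)
  have hsing : PL G [v 0 j] (v 0 j) (v 0 j) := PL.single _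
  by_cases hd : (s : ℤ) ∣ j - (c - j)
  · -- the class is one column
    have hcol : ∀ k < N, v k (c - j) = v k j := fun k hk => h.rows.per k hk _ _ hd
    refine ⟨_, h2.append hsing ?_ ?_, ?_⟩
    · have := h.ag j
      rwa [hcol 0 (by omega)] at this
    · intro x hx hx'
      rw [mem_seg (by omega)] at hx
      rw [List.mem_singleton] at hx'
      obtain ⟨k, h3, h4, h5⟩ := hx
      rw [hx'] at h5
      have := (h.rows.inj _ h4 _ (by omega) _ _ h5).1
      omega
    · intro x
      rw [List.mem_append, mem_seg (by omega), List.mem_singleton]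
      constructor
      · rintro (⟨k, h3, h4, h5⟩ | h5)
        · refine ⟨⟨k, h4, Or.inl h5⟩, ?_⟩
          intro h6
          rw [← h5] at h6
          have := (h.rows.inj _ h4 _ (by omega) _ _ h6).1
          omega
        · refine ⟨⟨0, by omega, Or.inl h5.symm⟩, ?_⟩
          intro h6
          rw [h5] at h6
          have := (h.rows.inj _ (by omega) _ (by omega) _ _ h6).1
          omega
      · rintro ⟨⟨k, h3, h4⟩, h5⟩
        have h6 : v k j = x := by
          rcases h4 with h4 | h4
          · exact h4
          · rw [← hcol k h3]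
            exact h4
        rcases Nat.lt_or_ge k 2 with h7 | h7
        · have : k ≠ 1 := by
            rintro rfl
            exact h5 h6.symm
          obtain rfl : k = 0 := by omega
          exact Or.inr h6.symm
        · exact Or.inl ⟨k, h7, h3, h6⟩
  · -- two columns
    have h3 := h.seg (c - j) (k₀ := 0) (by omega)
    have hne : ∀ k k', k < N → k' < N → v k j ≠ v k' (c - j) := by
      intro k k' hk hk' he
      have := (h.rows.inj _ hk _ hk' _ _ he).2
      exact hd (by
        have h5 : j - (c - j) = -(c - j - j) := by ring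
        rw [h5]
        exact (dvd_neg).2 this)
    refine ⟨_, (h2.append h3 ?_ ?_).append hsing ?_ ?_, ?_⟩
    · exact h.ag j
    · intro x hx hx'
      rw [mem_seg (by omega)] at hx hx'
      obtain ⟨k, -, h4, h5⟩ := hx
      obtain ⟨k', -, h4', h5'⟩ := hx'
      exact hne k k' h4 h4' (h5.trans h5'.symm)
    · have := h.ag (c - j)
      rwa [sub_sub_cancel] at this
    · intro x hx hx'
      rw [List.mem_append, mem_seg (by omega), mem_seg (by omega)] at hx
      rw [List.mem_singleton] at hx'
      rcases hx with ⟨k, h4, h4', h5⟩ | ⟨k, h4, h4', h5⟩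
      · rw [hx'] at h5
        have := (h.rows.inj _ h4' _ (by omega) _ _ h5).1
        omega
      · rw [hx'] at h5
        exact hne 0 k (by omega) h4' h5.symm
    · intro x
      rw [List.mem_append, List.mem_append, mem_seg (by omega), mem_seg (by omega),
        List.mem_singleton]
      constructor
      · rintro ((⟨k, h4, h4', h5⟩ | ⟨k, h4, h4', h5⟩) | h5)
        · refine ⟨⟨k, h4', Or.inl h5⟩, ?_⟩
          intro h6
          rw [← h5] at h6
          have := (h.rows.inj _ h4' _ (by omega) _ _ h6).1
          omega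
        · refine ⟨⟨k, h4', Or.inr h5⟩, ?_⟩
          intro h6
          rw [h6] at h5
          exact hne 1 k (by omega) h4' h5.symm
        · refine ⟨⟨0, by omega, Or.inl h5.symm⟩, ?_⟩
          intro h6
          rw [h5] at h6
          have := (h.rows.inj _ (by omega) _ (by omega) _ _ h6).1
          omega
      · rintro ⟨⟨k, h4, h5 | h5⟩, h6⟩
        · rcases Nat.lt_or_ge k 2 with h7 | h7
          · have : k ≠ 1 := by
              rintro rfl
              exact h6 h5.symm
            obtain rfl : k = 0 := by omega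
            exact Or.inr h5.symm
          · exact Or.inl (Or.inl ⟨k, h7, h4, h5⟩)
        · exact Or.inl (Or.inr ⟨k, Nat.zero_le _, h4, h5⟩)

/-- the last class -/
def qq (s : ℕ) (c : ℤ) : ℕ := if c = 0 then s / 2 else (s - 1) / 2

theorem Twd.disj (h : Twd G s N v c) (hc : c = 0 ∨ c = -1) {i j : ℕ} (hi : i ≤ qq s c)
    (hj : j ≤ qq s c) {x : α} (h1 : Cl N v c i x) (h2 : Cl N v c j x) : i = j := by
  have hs := h.rows.s1
  obtain ⟨k, hk, h1⟩ := h1
  obtain ⟨k', hk', h2⟩ := h2
  have key1 : ∀ a b : ℤ, v k a = x → v k' b = x → (s : ℤ) ∣ b - a := fun a b ha hb =>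
    (h.rows.inj _ hk _ hk' _ _ (ha.trans hb.symm)).2
  have hq : (qq s c : ℤ) < s := by
    unfold qq
    split <;> omega
  have hs0 : (0 : ℤ) < s := by exact_mod_cast hs
  -- the case of a sum
  have key2 : (s : ℤ) ∣ c - i - j → i = j := by
    intro hd
    rcases hc with rfl | rfl
    · have hq2 : qq s 0 = s / 2 := by simp [qq]
      rw [hq2] at hi hj
      have hd' : (s : ℤ) ∣ (i : ℤ) + j := by
        have : (i : ℤ) + j = -(0 - i - j) := by ring
        rw [this]
        exact (dvd_neg).2 hd
      obtain ⟨t, ht⟩ := hd'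
      have t0 : 0 ≤ t := by
        by_contra hneg
        push Not at hneg
        nlinarith
      have t1 : t ≤ 1 := by
        by_contra hneg
        push Not at hneg
        have : (s : ℤ) * 2 ≤ s * t := by nlinarith
        omega
      interval_cases t
      · omega
      · omega
    · have hq2 : qq s (-1) = (s - 1) / 2 := by simp [qq]
      rw [hq2] at hi hj
      have hd' : (s : ℤ) ∣ (i : ℤ) + j + 1 := by
        have : (i : ℤ) + j + 1 = -(-1 - i - j) := by ring
        rw [this]
        exact (dvd_neg).2 hd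
      obtain ⟨t, ht⟩ := hd'
      have t0 : 0 ≤ t := by
        by_contra hneg
        push Not at hneg
        nlinarith
      have t1 : t ≤ 1 := by
        by_contra hneg
        push Not at hneg
        have : (s : ℤ) * 2 ≤ s * t := by nlinarith
        omega
      interval_cases t
      · omega
      · omega
  rcases h1 with h1 | h1 <;> rcases h2 with h2 | h2
  · have := dvd_small (key1 _ _ h1 h2) (by omega) (by omega)
    omega
  · have := key1 _ _ h1 h2
    apply key2
    have e : c - (i : ℤ) - j = c - j - i := by ring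
    rw [e]
    exact this
  · have := key1 _ _ h1 h2
    apply key2
    have e : c - (i : ℤ) - j = -(j - (c - i)) := by ring
    rw [e]
    exact (dvd_neg).2 this
  · have h3 := key1 _ _ h1 h2
    have e : c - (j : ℤ) - (c - i) = i - j := by ring
    rw [e] at h3
    have := dvd_small h3 (by omega) (by omega)
    omega

theorem Twd.cover (h : Twd G s N v c) (hc : c = 0 ∨ c = -1) (x : α) :
    ∃ j : ℕ, j ≤ qq s c ∧ Cl N v c j x := by
  have hs := h.rows.s1
  obtain ⟨k, hk, m, hx⟩ := h.rows.sur x
  obtain ⟨i, hi, he⟩ := h.rows.ex hk 0 m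
  rw [zero_add, hx] at he
  rcases hc with rfl | rfl
  · have hq2 : qq s 0 = s / 2 := by simp [qq]
    rw [hq2]
    rcases Nat.lt_or_ge (s / 2) i with h1 | h1
    · refine ⟨s - i, by omega, k, hk, Or.inr ?_⟩
      rw [← he]
      apply h.rows.per k hk
      exact ⟨1, by omega⟩
    · exact ⟨i, h1, k, hk, Or.inl he⟩
  · have hq2 : qq s (-1) = (s - 1) / 2 := by simp [qq]
    rw [hq2]
    rcases Nat.lt_or_ge ((s - 1) / 2) i with h1 | h1
    · refine ⟨s - 1 - i, by omega, k, hk, Or.inr ?_⟩
      rw [← he]
      apply h.rows.per k hk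
      exact ⟨1, by omega⟩
    · exact ⟨i, h1, k, hk, Or.inl he⟩

theorem Twd.ham [DecidableEq α] [Fintype α] (h : Twd G s N v c) (hc : c = 0 ∨ c = -1) :
    G.IsHamiltonian := by
  have hN := h.hN
  have hlen : ∀ l : List α, (∀ x, x ∈ l) → 3 ≤ l.length := by
    intro l hall
    have hsub : ([v 0 0, v 1 0, v 2 0] : List α) ⊆ l := fun x _ => hall x
    have hnd : ([v 0 0, v 1 0, v 2 0] : List α).Nodup := by
      have hne : ∀ k k' : ℕ, k < N → k' < N → k ≠ k' → v k 0 ≠ v k' 0 := by
        intro k k' h1 h2 h3 h4
        exact h3 (h.rows.inj _ h1 _ h2 _ _ h4).1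
      simp only [List.nodup_cons, List.mem_cons, List.not_mem_nil, or_false, not_or,
        List.nodup_nil, not_false_eq_true, and_true]
      exact ⟨⟨hne 0 1 (by omega) (by omega) (by omega), hne 0 2 (by omega) (by omega) (by omega)⟩,
        hne 1 2 (by omega) (by omega) (by omega)⟩
    have := (hnd.subperm hsub).length_le
    simpa using this
  -- the first class
  obtain ⟨p0, hp0, hm0⟩ := h.P 0
  have h0 : PL G ([v 1 0] ++ p0) (v 1 0) (v 0 0) := by
    refine (PL.single _).append hp0 (h.a0 1 0 (by omega)) ?_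
    intro x hx hx'
    rw [List.mem_singleton] at hx
    exact ((hm0 x).1 hx').2 hx
  have hm0' : ∀ x, x ∈ [v 1 0] ++ p0 ↔ Cl N v c 0 x := by
    intro x
    rw [List.mem_append, List.mem_singleton, hm0]
    constructor
    · rintro (hx | hx)
      · exact ⟨1, by omega, Or.inl hx.symm⟩
      · exact hx.1
    · intro hx
      by_cases h1 : x = v 1 0
      · exact Or.inl h1
      · exact Or.inr ⟨hx, h1⟩
  have hcl1 : ∀ j : ℤ, Cl N v c j (v 1 j) := fun j => ⟨1, by omega, Or.inl rfl⟩
  rcases Nat.eq_zero_or_pos (qq s c) with hq | hq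
  · -- one class
    have hall : ∀ x, x ∈ [v 1 0] ++ p0 := by
      intro x
      obtain ⟨j, hj, hx⟩ := h.cover hc x
      obtain rfl : j = 0 := by omega
      exact (hm0' x).2 (by simpa using hx)
    exact h0.ham (h.a0 0 0 (by omega)) hall (hlen _ hall)
  · -- several classes
    have key : ∀ j : ℕ, j + 1 ≤ qq s c → ∃ l : List α, PL G l (v 0 j) (v 0 ((j + 1 : ℕ) : ℤ)) ∧
        ∀ x, x ∈ l ↔ ((∃ i ≤ j + 1, Cl N v c (i : ℕ) x) ∧ x ≠ v 1 ((j + 1 : ℕ) : ℤ)) := by
      intro j
      induction j with
      | zero =>
        intro hj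
        obtain ⟨p1, hp1, hm1⟩ := h.P 1
        have hne : ∀ x, Cl N v c 0 x → Cl N v c 1 x → False := by
          intro x h1 h2
          have := h.disj hc (i := 0) (j := 1) (by omega) (by omega) (by simpa using h1)
            (by simpa using h2)
          omega
        have hbase : PL G (([v 1 0] ++ p0).reverse ++ p1) (v 0 0) (v 0 1) := by
          refine h0.reverse.append hp1 (by simpa using h.a1 1 0 (by omega)) ?_
          intro x hx hx'
          rw [List.mem_reverse, hm0'] at hx
          exact hne x hx ((hm1 x).1 hx').1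
        refine ⟨([v 1 0] ++ p0).reverse ++ p1, by simpa using hbase, ?_⟩
        · intro x
          have e2 : (∃ i ≤ 0 + 1, Cl N v c ((i : ℕ) : ℤ) x) ↔ (Cl N v c 0 x ∨ Cl N v c 1 x) := by
            constructor
            · rintro ⟨i, hi, hx⟩
              have : i = 0 ∨ i = 1 := by omega
              rcases this with rfl | rfl
              · left
                simpa using hx
              · right
                simpa using hx
            · rintro (hx | hx)
              · exact ⟨0, by omega, by simpa using hx⟩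
              · exact ⟨1, by omega, by simpa using hx⟩
          rw [e2, List.mem_append, List.mem_reverse, hm0', hm1]
          constructor
          · rintro (hx | ⟨hx, hx'⟩)
            · refine ⟨Or.inl hx, ?_⟩
              rintro rfl
              exact hne _ hx (by simpa using hcl1 1)
            · exact ⟨Or.inr hx, by simpa using hx'⟩
          · rintro ⟨hx | hx, hx'⟩
            · exact Or.inl hx
            · exact Or.inr ⟨hx, by simpa using hx'⟩
      | succ j ih =>
        intro hj
        obtain ⟨l, hl, hm⟩ := ih (by omega)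
        obtain ⟨p, hp, hmp⟩ := h.P ((j + 1 + 1 : ℕ) : ℤ)
        have hne : ∀ (i : ℕ) (x : α), i ≤ j + 1 → Cl N v c i x →
            Cl N v c ((j + 1 + 1 : ℕ) : ℤ) x → False := by
          intro i x hi h1 h2
          have := h.disj hc (i := i) (j := j + 1 + 1) (by omega) (by omega) h1 h2
          omega
        refine ⟨l.reverse ++ [v 1 ((j + 1 : ℕ) : ℤ)] ++ p, ?_, ?_⟩
        · have hr := hl.reverse
          have h3 : PL G (l ++ [v 1 ((j + 1 : ℕ) : ℤ)]).reverse (v 1 ((j + 1 : ℕ) : ℤ)) (v 0 j) := by
            apply PL.reverse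
            refine hl.append (PL.single _) (h.a0 0 _ (by omega)) ?_
            intro x hx hx'
            rw [List.mem_singleton] at hx'
            exact ((hm x).1 hx).2 hx'
          have h4 : PL G (l.reverse ++ [v 1 ((j + 1 : ℕ) : ℤ)]) (v 0 ((j + 1 : ℕ) : ℤ))
              (v 1 ((j + 1 : ℕ) : ℤ)) := by
            refine hr.append (PL.single _) ?_ ?_
            · have := h.a1 0 j (by omega)
              simpa using this
            · intro x hx hx'
              rw [List.mem_reverse] at hx
              rw [List.mem_singleton] at hx'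
              exact ((hm x).1 hx).2 hx'
          refine h4.append hp ?_ ?_
          · have := h.a1 1 ((j + 1 : ℕ) : ℤ) (by omega)
            simpa using this
          · intro x hx hx'
            rw [List.mem_append, List.mem_reverse, List.mem_singleton] at hx
            have h5 := ((hmp x).1 hx').1
            rcases hx with hx | hx
            · obtain ⟨⟨i, hi, h6⟩, -⟩ := (hm x).1 hx
              exact hne i x hi h6 h5
            · rw [hx] at h5
              exact hne (j + 1) _ le_rfl (hcl1 _) h5
        · intro x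
          rw [List.mem_append, List.mem_append, List.mem_reverse, List.mem_singleton, hm, hmp]
          constructor
          · rintro ((⟨⟨i, hi, h6⟩, h7⟩ | hx) | ⟨h6, h7⟩)
            · refine ⟨⟨i, by omega, h6⟩, ?_⟩
              rintro rfl
              exact hne i _ hi h6 (hcl1 _)
            · refine ⟨⟨j + 1, by omega, by rw [hx]; exact hcl1 _⟩, ?_⟩
              rintro rfl
              have h8 := hcl1 ((j + 1 : ℕ) : ℤ)
              rw [← hx] at h8
              exact hne (j + 1) _ le_rfl h8 (hcl1 _)
            · exact ⟨⟨j + 1 + 1, le_rfl, h6⟩, h7⟩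
          · rintro ⟨⟨i, hi, h6⟩, h7⟩
            rcases Nat.lt_or_ge i (j + 1 + 1) with h8 | h8
            · left
              by_cases h9 : x = v 1 ((j + 1 : ℕ) : ℤ)
              · exact Or.inr h9
              · exact Or.inl ⟨⟨i, by omega, h6⟩, h9⟩
            · obtain rfl : i = j + 1 + 1 := by omega
              exact Or.inr ⟨h6, h7⟩
    obtain ⟨q, hqq⟩ : ∃ q, qq s c = q + 1 := ⟨qq s c - 1, by omega⟩
    obtain ⟨l, hl, hm⟩ := key q (by omega)
    have h4 : PL G (l ++ [v 1 ((q + 1 : ℕ) : ℤ)]) (v 0 q) (v 1 ((q + 1 : ℕ) : ℤ)) := by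
      refine hl.append (PL.single _) (h.a0 0 _ (by omega)) ?_
      intro x hx hx'
      rw [List.mem_singleton] at hx'
      exact ((hm x).1 hx).2 hx'
    have hall : ∀ x, x ∈ l ++ [v 1 ((q + 1 : ℕ) : ℤ)] := by
      intro x
      obtain ⟨j, hj, hx⟩ := h.cover hc x
      rw [List.mem_append, List.mem_singleton, hm]
      by_cases h9 : x = v 1 ((q + 1 : ℕ) : ℤ)
      · exact Or.inr h9
      · exact Or.inl ⟨⟨j, by omega, hx⟩, h9⟩
    refine h4.ham ?_ hall (hlen _ hall)
    have := (h.a1 0 q (by omega)).symm
    simpa using this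

end Tw

end KSQ
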