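import Pool.Agent.KSQ.Col
import Pool.Agent.KSQ.Tw
import Pool.Agent.KR.KR_CNT

/-!
# 4-regular quadrangular maps of Euler characteristic zero are Hamiltonian (project KSQ)
-/

set_option autoImplicit false

namespace KSQ

open Function

variable {W Ω : Type} {G : SimpleGraph W}

/-- all faces have length four, all degrees are four; the map is connected -/
structure Sq (M : KR.GMap G Ω) : Prop where
  r01 : ∀ x, M.a0 (M.a1 (M.a0 (M.a1 x))) = M.a1 (M.a0 (M.a1 (M.a0 x)))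
  f01 : ∀ x, M.a0 (M.a1 (M.a0 (M.a1 x))) ≠ x
  r12 : ∀ x, M.a1 (M.a2 (M.a1 (M.a2 x))) = M.a2 (M.a1 (M.a2 (M.a1 x)))
  f12 : ∀ x, M.a1 (M.a2 (M.a1 (M.a2 x))) ≠ x
  conn : ∀ g : Ω → Prop, (∀ x, g (M.a0 x) ↔ g x) → (∀ x, g (M.a1 x) ↔ g x) →
    (∀ x, g (M.a2 x) ↔ g x) → ∀ x y, g x → g y

variable (M : KR.GMap G Ω)

def A0 : Equiv.Perm Ω := ⟨M.a0, M.a0, M.i0, M.i0⟩
def A1 : Equiv.Perm Ω := ⟨M.a1, M.a1, M.i1, M.i1⟩
def A2 : Equiv.Perm Ω := ⟨M.a2, M.a2, M.i2, M.i2⟩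

/-- one step forward -/
def F : Equiv.Perm Ω := A1 M * A2 M * A1 M * A0 M

/-- one step to the side -/
def L : Equiv.Perm Ω := A2 M * A1 M * A0 M * A1 M

theorem F_apply (x : Ω) : F M x = M.a1 (M.a2 (M.a1 (M.a0 x))) := rfl
theorem L_apply (x : Ω) : L M x = M.a2 (M.a1 (M.a0 (M.a1 x))) := rfl
theorem Fi_apply (x : Ω) : (F M)⁻¹ x = M.a0 (M.a1 (M.a2 (M.a1 x))) := rfl
theorem Li_apply (x : Ω) : (L M)⁻¹ x = M.a1 (M.a0 (M.a1 (M.a2 x))) := rfl
theorem A1_apply (x : Ω) : A1 M x = M.a1 x := rfl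
theorem A2_apply (x : Ω) : A2 M x = M.a2 x := rfl

variable {M}

theorem wF (x : Ω) : M.w (F M x) = M.w (M.a0 x) := by
  rw [F_apply, M.w1, M.w2, M.w1]

theorem wL (x : Ω) : M.w (L M x) = M.w (M.a0 (M.a1 x)) := by
  rw [L_apply, M.w2, M.w1]

theorem wLi (x : Ω) : M.w ((L M)⁻¹ x) = M.w (M.a0 (M.a1 (M.a2 x))) := by
  rw [Li_apply, M.w1]

theorem adjF (x : Ω) : G.Adj (M.w x) (M.w (F M x)) := by
  rw [wF]
  exact (M.adj _ _).2 ⟨x, rfl, rfl⟩

theorem adjL (x : Ω) : G.Adj (M.w x) (M.w (L M x)) := by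
  rw [wL]
  exact (M.adj _ _).2 ⟨M.a1 x, M.w1 x, rfl⟩

theorem ne02 (x : Ω) : M.a2 x ≠ M.a0 x := by
  intro h
  have h1 : G.Adj (M.w x) (M.w (M.a0 x)) := (M.adj _ _).2 ⟨x, rfl, rfl⟩
  rw [← h, M.w2] at h1
  exact h1.ne rfl

theorem ne12 (h : Sq M) (x : Ω) : M.a1 x ≠ M.a2 x := by
  intro h1
  apply h.f12 x
  rw [← h1, M.i1, ← h1, M.i1]

theorem a1inj {x y : Ω} (h : M.a1 x = M.a1 y) : x = y := by
  rw [← M.i1 x, h, M.i1]

theorem a2inj {x y : Ω} (h : M.a2 x = M.a2 y) : x = y := by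
  rw [← M.i2 x, h, M.i2]

/-- opposite neighbours are different -/
theorem nbrFF (h : Sq M) (x : Ω) : M.w (F M x) ≠ M.w ((F M)⁻¹ x) := by
  intro h1
  rw [wF, Fi_apply] at h1
  have h2 : M.w x = M.w (M.a1 (M.a2 (M.a1 x))) := by rw [M.w1, M.w2, M.w1]
  rcases M.uniq _ _ h2 h1 with h3 | h3
  · have h4 := congrArg M.a1 h3
    rw [M.i1] at h4
    exact M.n2 _ h4
  · apply h.f12 x
    rw [h.r12, h3, M.i2]

theorem nbrLL (h : Sq M) (x : Ω) : M.w (L M x) ≠ M.w ((L M)⁻¹ x) := by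
  intro h1
  rw [wL, wLi] at h1
  have h2 : M.w (M.a1 x) = M.w (M.a1 (M.a2 x)) := by rw [M.w1, M.w1, M.w2]
  rcases M.uniq _ _ h2 h1 with h3 | h3
  · apply M.n2 x
    apply a1inj
    exact h3
  · apply h.f12 x
    rw [h3, M.i2, M.i1]

theorem nbrLFi (h : Sq M) (x : Ω) : M.w (L M x) ≠ M.w ((F M)⁻¹ x) := by
  intro h1
  rw [wL, Fi_apply] at h1
  have h2 : M.w (M.a1 x) = M.w (M.a1 (M.a2 (M.a1 x))) := by rw [M.w1, M.w1, M.w2, M.w1]
  rcases M.uniq _ _ h2 h1 with h3 | h3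
  · have h4 : M.a2 (M.a1 x) = x := a1inj h3
    exact ne12 h x (by rw [← h4, M.i2, h4])
  · exact M.n1 _ h3

theorem commFL (h : Sq M) : Commute (F M) (L M) := by
  ext x
  change F M (L M x) = L M (F M x)
  rw [F_apply, L_apply, L_apply, F_apply, M.c02, h.r12, h.r01, M.i1, M.i1, M.c02]

theorem a1F : A1 M * F M = L M * A1 M := by
  ext x
  change A1 M (F M x) = L M (A1 M x)
  rw [F_apply, L_apply, A1_apply, A1_apply, M.i1, M.i1]

theorem a1L : A1 M * L M = F M * A1 M := by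
  ext x
  rfl

theorem a2F (h : Sq M) : A2 M * F M = F M * A2 M := by
  ext x
  change A2 M (F M x) = F M (A2 M x)
  rw [F_apply, F_apply, A2_apply, A2_apply, M.c02, h.r12]

theorem a2L : A2 M * L M = (L M)⁻¹ * A2 M := by
  ext x
  change A2 M (L M x) = (L M)⁻¹ (A2 M x)
  rw [L_apply, Li_apply, A2_apply, A2_apply, M.i2, M.i2]

theorem a1a1 : A1 M * A1 M = 1 := by
  ext x
  exact M.i1 x

theorem a2a2 : A2 M * A2 M = 1 := by
  ext x
  exact M.i2 x

/-- `y` is a translate of `x` -/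
def InT (M : KR.GMap G Ω) (x y : Ω) : Prop := ∃ i j : ℤ, y = (F M ^ i * L M ^ j) x

theorem tradd (h : Sq M) (i j i' j' : ℤ) (x : Ω) :
    (F M ^ i * L M ^ j) ((F M ^ i' * L M ^ j') x) = (F M ^ (i + i') * L M ^ (j + j')) x := by
  have hc : Commute (L M ^ j) (F M ^ i') := ((commFL h).symm.zpow_left j).zpow_right i'
  rw [← Equiv.Perm.mul_apply]
  congr 1
  calc F M ^ i * L M ^ j * (F M ^ i' * L M ^ j') = F M ^ i * (L M ^ j * F M ^ i') * L M ^ j' := by
        simp only [mul_assoc]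
    _ = F M ^ i * (F M ^ i' * L M ^ j) * L M ^ j' := by rw [hc.eq]
    _ = F M ^ (i + i') * L M ^ (j + j') := by
        rw [zpow_add, zpow_add]
        simp only [mul_assoc]

theorem InT.refl (x : Ω) : InT M x x := ⟨0, 0, by simp⟩

theorem InT.symm (h : Sq M) {x y : Ω} (hxy : InT M x y) : InT M y x := by
  obtain ⟨i, j, rfl⟩ := hxy
  refine ⟨-i, -j, ?_⟩
  rw [tradd h, neg_add_cancel, neg_add_cancel]
  simp

theorem InT.trans (h : Sq M) {x y z : Ω} (hxy : InT M x y) (hyz : InT M y z) : InT M x z := by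
  obtain ⟨i, j, rfl⟩ := hxy
  obtain ⟨i', j', rfl⟩ := hyz
  exact ⟨i' + i, j' + j, tradd h _ _ _ _ _⟩

theorem a1tr (h : Sq M) (i j : ℤ) (x : Ω) :
    M.a1 ((F M ^ i * L M ^ j) x) = (F M ^ j * L M ^ i) (M.a1 x) := by
  have h1 : SemiconjBy (A1 M) (F M) (L M) := a1F
  have h2 : SemiconjBy (A1 M) (L M) (F M) := a1L
  have h3 := (h1.zpow_right i).mul_right (h2.zpow_right j)
  have hc : Commute (L M ^ i) (F M ^ j) := ((commFL h).symm.zpow_left i).zpow_right j
  have h4 := h3.eq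
  rw [hc.eq] at h4
  exact congrArg (fun p : Equiv.Perm Ω => p x) h4

theorem a2tr (h : Sq M) (i j : ℤ) (x : Ω) :
    M.a2 ((F M ^ i * L M ^ j) x) = (F M ^ i * L M ^ (-j)) (M.a2 x) := by
  have h1 : SemiconjBy (A2 M) (F M) (F M) := a2F h
  have h2 : SemiconjBy (A2 M) (L M) (L M)⁻¹ := a2L
  have h3 := (h1.zpow_right i).mul_right (h2.zpow_right j)
  have h4 := h3.eq
  rw [inv_zpow'] at h4
  exact congrArg (fun p : Equiv.Perm Ω => p x) h4

theorem InT.a1 (h : Sq M) {x y : Ω} (hxy : InT M x y) : InT M (M.a1 x) (M.a1 y) := by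
  obtain ⟨i, j, rfl⟩ := hxy
  exact ⟨j, i, a1tr h i j x⟩

theorem InT.a2 (h : Sq M) {x y : Ω} (hxy : InT M x y) : InT M (M.a2 x) (M.a2 y) := by
  obtain ⟨i, j, rfl⟩ := hxy
  exact ⟨i, -j, a2tr h i j x⟩

/-- no rotation by 180 degrees -/
theorem rot (h : Sq M) (x : Ω) : ¬ InT M x (M.a1 (M.a2 (M.a1 (M.a2 x)))) := by
  rintro ⟨i, j, hij⟩
  -- move the centre
  obtain ⟨p, e, hp, he⟩ : ∃ p e : ℤ, i = 2 * p + e ∧ (e = 0 ∨ e = 1) :=
    ⟨i / 2, i % 2, by omega, by omega⟩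
  obtain ⟨q, f, hq, hf⟩ : ∃ q f : ℤ, j = 2 * q + f ∧ (f = 0 ∨ f = 1) :=
    ⟨j / 2, j % 2, by omega, by omega⟩
  obtain ⟨y, hy⟩ : ∃ y, y = (F M ^ p * L M ^ q) x := ⟨_, rfl⟩
  have hx : x = (F M ^ (-p) * L M ^ (-q)) y := by
    rw [hy, tradd h, neg_add_cancel, neg_add_cancel]
    simp
  have key : M.a1 (M.a2 (M.a1 (M.a2 y))) = (F M ^ e * L M ^ f) y := by
    rw [hy, a2tr h, a1tr h, a2tr h, a1tr h, hij, tradd h, tradd h]
    have e1 : -p + i = e + p := by omega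
    have e2 : -q + j = f + q := by omega
    rw [e1, e2]
  rcases he with rfl | rfl <;> rcases hf with rfl | rfl
  · simp only [zpow_zero, one_mul, Equiv.Perm.one_apply] at key
    exact h.f12 y key
  · simp only [zpow_zero, zpow_one, one_mul] at key
    rw [h.r12, L_apply] at key
    have h1 := a1inj (a2inj key)
    exact ne02 _ h1
  · simp only [zpow_zero, zpow_one, mul_one] at key
    rw [F_apply] at key
    have h1 := a1inj (a2inj (a1inj key))
    exact ne02 _ h1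
  · simp only [zpow_one, Equiv.Perm.mul_apply] at key
    rw [F_apply, L_apply, M.c02] at key
    have h1 := a2inj (a1inj (a2inj (a1inj key)))
    exact h.f01 y h1.symm

/-- no rotation by 90 degrees -/
theorem rot12 (h : Sq M) (x : Ω) : ¬ InT M x (M.a1 (M.a2 x)) := by
  intro h1
  have h2 := (h1.a2 h).a1 h
  exact rot h x (h1.trans h h2)

theorem rot21 (h : Sq M) (x : Ω) : ¬ InT M x (M.a2 (M.a1 x)) := by
  intro h1
  have h2 := (h1.a1 h).a2 h
  have h3 := h1.trans h h2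
  rw [← h.r12] at h3
  exact rot h x h3

/-- the flags at a vertex -/
theorem vert (h : Sq M) {x y : Ω} (hw : M.w x = M.w y) :
    y = x ∨ y = M.a1 x ∨ y = M.a2 x ∨ y = M.a1 (M.a2 x) ∨ y = M.a2 (M.a1 x) ∨
      y = M.a1 (M.a2 (M.a1 x)) ∨ y = M.a2 (M.a1 (M.a2 x)) ∨
      y = M.a1 (M.a2 (M.a1 (M.a2 x))) := by
  set g : Ω → Prop := fun y => y = x ∨ y = M.a1 x ∨ y = M.a2 x ∨ y = M.a1 (M.a2 x) ∨
    y = M.a2 (M.a1 x) ∨ y = M.a1 (M.a2 (M.a1 x)) ∨ y = M.a2 (M.a1 (M.a2 x)) ∨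
      y = M.a1 (M.a2 (M.a1 (M.a2 x))) with hg
  have c1 : ∀ z, g z → g (M.a1 z) := by
    rintro z (rfl | rfl | rfl | rfl | rfl | rfl | rfl | rfl)
    · exact Or.inr (Or.inl rfl)
    · rw [M.i1]
      exact Or.inl rfl
    · exact Or.inr (Or.inr (Or.inr (Or.inl rfl)))
    · rw [M.i1]
      exact Or.inr (Or.inr (Or.inl rfl))
    · exact Or.inr (Or.inr (Or.inr (Or.inr (Or.inr (Or.inl rfl)))))
    · rw [M.i1]
      exact Or.inr (Or.inr (Or.inr (Or.inr (Or.inl rfl))))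
    · exact Or.inr (Or.inr (Or.inr (Or.inr (Or.inr (Or.inr (Or.inr rfl))))))
    · rw [M.i1]
      exact Or.inr (Or.inr (Or.inr (Or.inr (Or.inr (Or.inr (Or.inl rfl))))))
  have c2 : ∀ z, g z → g (M.a2 z) := by
    rintro z (rfl | rfl | rfl | rfl | rfl | rfl | rfl | rfl)
    · exact Or.inr (Or.inr (Or.inl rfl))
    · exact Or.inr (Or.inr (Or.inr (Or.inr (Or.inl rfl))))
    · rw [M.i2]
      exact Or.inl rfl
    · exact Or.inr (Or.inr (Or.inr (Or.inr (Or.inr (Or.inr (Or.inl rfl))))))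
    · rw [M.i2]
      exact Or.inr (Or.inl rfl)
    · rw [← h.r12]
      exact Or.inr (Or.inr (Or.inr (Or.inr (Or.inr (Or.inr (Or.inr rfl))))))
    · rw [M.i2]
      exact Or.inr (Or.inr (Or.inr (Or.inl rfl)))
    · rw [h.r12, M.i2]
      exact Or.inr (Or.inr (Or.inr (Or.inr (Or.inr (Or.inl rfl)))))
  exact M.vtx g (fun z => ⟨fun hz => by
    have := c1 _ hz
    rwa [M.i1] at this, c1 z⟩) (fun z => ⟨fun hz => by
    have := c2 _ hz
    rwa [M.i2] at this, c2 z⟩) x y hw (Or.inl rfl)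

/-- the translates of `x₀` meet every vertex -/
theorem cover (h : Sq M) (hs : ∀ u, ∃ y, M.w y = u) (x₀ : Ω) (u : W) :
    ∃ i j : ℤ, M.w ((F M ^ i * L M ^ j) x₀) = u := by
  set g : Ω → Prop := fun y => ∃ z, InT M x₀ z ∧ M.w z = M.w y with hg
  have hF : ∀ z, InT M x₀ z → InT M x₀ (F M z) := by
    intro z hz
    exact hz.trans h ⟨1, 0, by simp⟩
  have hFi : ∀ z, InT M x₀ z → InT M x₀ ((F M)⁻¹ z) := by
    intro z hz
    exact hz.trans h ⟨-1, 0, by simp⟩
  have hL : ∀ z, InT M x₀ z → InT M x₀ (L M z) := by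
    intro z hz
    exact hz.trans h ⟨0, 1, by simp⟩
  have hLi : ∀ z, InT M x₀ z → InT M x₀ ((L M)⁻¹ z) := by
    intro z hz
    exact hz.trans h ⟨0, -1, by simp⟩
  have c0 : ∀ y, g y → g (M.a0 y) := by
    rintro y ⟨z, hz, hw⟩
    rcases vert h hw with rfl | rfl | rfl | rfl | rfl | rfl | rfl | rfl
    · exact ⟨_, hF _ hz, wF _⟩
    · exact ⟨_, hL _ hz, wL _⟩
    · exact ⟨_, hF _ hz, by rw [wF, M.c02, M.w2]⟩
    · exact ⟨_, hLi _ hz, wLi _⟩
    · exact ⟨_, hL _ hz, by rw [wL, M.c02, M.w2]⟩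
    · exact ⟨_, hFi _ hz, by rw [Fi_apply]⟩
    · exact ⟨_, hLi _ hz, by rw [wLi, M.c02, M.w2]⟩
    · refine ⟨_, hFi _ hz, ?_⟩
      rw [Fi_apply, h.r12, M.c02, M.w2]
  have h1 : ∀ y, g y := fun y => h.conn g
    (fun z => ⟨fun hz => by
      have := c0 _ hz
      rwa [M.i0] at this, c0 z⟩)
    (fun z => by simp only [hg, M.w1]) (fun z => by simp only [hg, M.w2]) x₀ y
    ⟨x₀, InT.refl _, rfl⟩
  obtain ⟨y, rfl⟩ := hs u
  obtain ⟨z, ⟨i, j, rfl⟩, hw⟩ := h1 y
  exact ⟨i, j, hw⟩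

/-! ### The straight case -/

theorem colQ (h : Sq M) (hs : ∀ u, ∃ y, M.w y = u) (x₀ : Ω)
    (hq : ∀ y z, InT M x₀ y → InT M y z → M.w y = M.w z → z = y ∨ z = M.a2 y) :
    Colm M.w (L M) (F M) (A2 M) x₀ := by
  have hin : ∀ m k : ℤ, InT M x₀ ((L M ^ m * F M ^ k) x₀) := by
    intro m k
    refine ⟨k, m, ?_⟩
    have hc : Commute (L M ^ m) (F M ^ k) := ((commFL h).symm.zpow_left m).zpow_right k
    rw [hc.eq]
  refine ⟨(commFL h).symm, a2a2, a2L, ⟨0, ?_⟩, M.w2, ?_, ?_, ?_⟩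
  · rw [zpow_zero, one_mul]
    exact a2F h
  · intro m k m' k' hw
    exact hq _ _ (hin m k) (((hin m k).symm h).trans h (hin m' k')) hw
  · intro m k
    refine ⟨M.n2 _, ?_⟩
    intro h1
    rw [A2_apply, L_apply] at h1
    have h2 := a2inj h1
    have h3 : M.a1 ((L M ^ m * F M ^ k) x₀) = M.a0 (M.a1 ((L M ^ m * F M ^ k) x₀)) := by
      apply a1inj
      rw [M.i1]
      exact h2
    exact KR.KR_CNT.n0 M _ h3.symm
  · intro u
    obtain ⟨i, j, hu⟩ := cover h hs x₀ u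
    refine ⟨j, i, ?_⟩
    have hc : Commute (L M ^ j) (F M ^ i) := ((commFL h).symm.zpow_left j).zpow_right i
    rw [hc.eq, hu]

theorem hamQ [Finite Ω] [DecidableEq W] [Fintype W] (h : Sq M) (hs : ∀ u, ∃ y, M.w y = u) (x₀ : Ω)
    (hq : ∀ y z, InT M x₀ y → InT M y z → M.w y = M.w z → z = y ∨ z = M.a2 y) :
    G.IsHamiltonian := by
  obtain ⟨s, N, hN, hr, hd, -, -⟩ := (colQ h hs x₀ hq).rows
  have hs3 : 3 ≤ s := by
    have h1 := hr.s1
    have h2 : s ≠ 1 := by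
      rintro rfl
      have h3 : (L M ^ (1 : ℤ)) x₀ = x₀ := (hd 1).2 (by norm_num)
      rw [zpow_one] at h3
      have h4 := adjL (M := M) x₀
      rw [h3] at h4
      exact h4.ne rfl
    have h2' : s ≠ 2 := by
      rintro rfl
      have h3 : (L M ^ (2 : ℤ)) x₀ = x₀ := (hd 2).2 (by norm_num)
      apply nbrLL h x₀
      congr 1
      rw [Equiv.Perm.eq_inv_iff_eq]
      rw [zpow_two] at h3
      exact h3
    omega
  refine grid (G := G) hr hs3 hN ?_ ?_
  · intro k _ m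
    have h1 := adjL (M := M) ((L M ^ m * F M ^ (k : ℤ)) x₀)
    have h2 : L M ((L M ^ m * F M ^ (k : ℤ)) x₀) = (L M ^ (m + 1) * F M ^ (k : ℤ)) x₀ := by
      rw [← Equiv.Perm.mul_apply, ← mul_assoc, ← zpow_one_add, add_comm]
    rw [h2] at h1
    exact h1
  · intro k m _
    have h1 := adjF (M := M) ((L M ^ m * F M ^ (k : ℤ)) x₀)
    have h2 : F M ((L M ^ m * F M ^ (k : ℤ)) x₀) = (L M ^ m * F M ^ ((k + 1 : ℕ) : ℤ)) x₀ := by
      have hc : Commute (F M) (L M ^ m) := (commFL h).zpow_right m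
      rw [← Equiv.Perm.mul_apply, ← mul_assoc, hc.eq, mul_assoc, ← zpow_one_add]
      push_cast
      rw [add_comm]
    rw [h2] at h1
    exact h1

/-! ### The diagonal case -/

/-- the step along the diagonal -/
def K (M : KR.GMap G Ω) : Equiv.Perm Ω := F M * (L M)⁻¹

theorem KL (M : KR.GMap G Ω) : K M * L M = F M := by
  rw [K, inv_mul_cancel_right]

theorem commKL (h : Sq M) : Commute (K M) (L M) := by
  unfold K
  exact (commFL h).mul_left (Commute.inv_left (Commute.refl _))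

theorem Kz (h : Sq M) (m k : ℤ) : K M ^ m * L M ^ k = F M ^ m * L M ^ (k - m) := by
  have hc : Commute (F M) (L M)⁻¹ := (commFL h).inv_right
  rw [K, hc.mul_zpow, inv_zpow', mul_assoc, ← zpow_add]
  congr 2
  ring

theorem a1K : A1 M * K M = (K M)⁻¹ * A1 M := by
  have h1 : SemiconjBy (A1 M) (F M) (L M) := a1F
  have h2 : SemiconjBy (A1 M) (L M) (F M) := a1L
  have h3 := (h1.mul_right h2.inv_right).eq
  have h4 : (K M)⁻¹ = L M * (F M)⁻¹ := by
    rw [K, mul_inv_rev, inv_inv]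
  rw [h4]
  exact h3

theorem colD (h : Sq M) (hs : ∀ u, ∃ y, M.w y = u) (x₀ : Ω)
    (hq : ∀ y z, InT M x₀ y → InT M y z → M.w y = M.w z → z = y ∨ z = M.a1 y) :
    Colm M.w (K M) (L M) (A1 M) x₀ := by
  have hin : ∀ m k : ℤ, InT M x₀ ((K M ^ m * L M ^ k) x₀) := by
    intro m k
    exact ⟨m, k - m, by rw [Kz h]⟩
  refine ⟨commKL h, a1a1, a1K, ⟨1, ?_⟩, M.w1, ?_, ?_, ?_⟩
  · rw [zpow_one, KL]
    exact a1L
  · intro m k m' k' hw
    exact hq _ _ (hin m k) (((hin m k).symm h).trans h (hin m' k')) hw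
  · intro m k
    refine ⟨M.n1 _, ?_⟩
    generalize (K M ^ m * L M ^ k) x₀ = y
    intro h1
    have h2 : K M y = M.a1 (M.a2 (M.a1 (M.a0 (M.a1 (M.a0 (M.a1 (M.a2 y))))))) := rfl
    rw [h2, A1_apply] at h1
    have h3 := a1inj h1
    -- `z = a2 y`, `z = a1 a0 a1 a0 a1 z`
    have h4 : M.a2 y = M.a1 (M.a0 (M.a1 (M.a0 (M.a1 (M.a2 y))))) := by
      nth_rw 1 [h3]
      rw [M.i2]
    have h5 : M.a1 (M.a2 y) = M.a0 (M.a1 (M.a0 (M.a1 (M.a2 y)))) := by
      nth_rw 1 [h4]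
      rw [M.i1]
    have h6 : M.a0 (M.a1 (M.a2 y)) = M.a1 (M.a0 (M.a1 (M.a2 y))) := by
      nth_rw 1 [h5]
      rw [M.i0]
    exact M.n1 _ h6.symm
  · intro u
    obtain ⟨i, j, hu⟩ := cover h hs x₀ u
    refine ⟨i, i + j, ?_⟩
    rw [Kz h, add_sub_cancel_left, hu]

theorem hamD [Finite Ω] [DecidableEq W] [Fintype W] (h : Sq M) (hs : ∀ u, ∃ y, M.w y = u) (x₀ : Ω)
    (hx : InT M x₀ (M.a1 x₀))
    (hq : ∀ y z, InT M x₀ y → InT M y z → M.w y = M.w z → z = y ∨ z = M.a1 y) :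
    G.IsHamiltonian := by
  have hcol := colD h hs x₀ hq
  obtain ⟨s, N, hN, hr, hd, ⟨a, hglue⟩, hne⟩ := hcol.rows
  have hcomm : ∀ p q : ℤ, Commute (K M ^ p) (L M ^ q) := fun p q =>
    ((commKL h).zpow_left p).zpow_right q
  have he : ∀ p : ℤ, A1 M * K M ^ p = K M ^ (-p) * A1 M := hcol.ecz
  -- the glueing is a reflection
  have hrefl : (L M ^ (N : ℤ)) x₀ = (K M ^ a) (M.a1 x₀) := by
    rcases hglue with h1 | h1
    · exfalso
      obtain ⟨i, j, hij⟩ := hx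
      have hN0 : (0 : ℤ) < N := by exact_mod_cast hN
      obtain ⟨t, r, hr1, hr2⟩ : ∃ (t : ℤ) (r : ℕ), i + j = N * t + r ∧ r < N := by
        refine ⟨(i + j) / N, ((i + j) % N).toNat, ?_, ?_⟩
        · have h2 := Int.emod_nonneg (i + j) hN0.ne'
          rw [Int.toNat_of_nonneg h2]
          exact (Int.mul_ediv_add_emod (i + j) N).symm
        · have h2 := Int.emod_nonneg (i + j) hN0.ne'
          have h3 := Int.emod_lt_of_pos (i + j) hN0
          omega
      -- powers of the translation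
      have h2 : ∀ t : ℤ, (L M ^ (N * t)) x₀ = (K M ^ (a * t)) x₀ := by
        intro t
        have h3 : (K M ^ (-a) * L M ^ (N : ℤ)) x₀ = x₀ := by
          rw [Equiv.Perm.mul_apply, h1, ← Equiv.Perm.mul_apply, ← zpow_add, neg_add_cancel]
          simp
        have h4 : ((K M ^ (-a) * L M ^ (N : ℤ)) ^ t) x₀ = x₀ := by
          exact Equiv.Perm.zpow_apply_eq_self_of_apply_eq_self h3 t
        rw [(hcomm _ _).mul_zpow, ← zpow_mul, ← zpow_mul, Equiv.Perm.mul_apply] at h4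
        have h5 : (K M ^ (a * t)) ((K M ^ (-a * t)) ((L M ^ (N * t)) x₀)) = (K M ^ (a * t)) x₀ := by
          rw [h4]
        rw [← Equiv.Perm.mul_apply, ← zpow_add] at h5
        have h6 : a * t + -a * t = 0 := by ring
        rw [h6, zpow_zero, Equiv.Perm.one_apply] at h5
        exact h5
      have h3 : M.a1 x₀ = (K M ^ (i + a * t)) ((L M ^ (r : ℤ)) x₀) := by
        calc M.a1 x₀ = (F M ^ i * L M ^ j) x₀ := hij
          _ = (K M ^ i * L M ^ (i + j)) x₀ := by rw [Kz h, add_sub_cancel_left]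
          _ = (K M ^ i * L M ^ (r : ℤ)) ((L M ^ (N * t)) x₀) := by
              rw [hr1, add_comm, zpow_add]
              simp only [Equiv.Perm.mul_apply]
          _ = (K M ^ i * L M ^ (r : ℤ)) ((K M ^ (a * t)) x₀) := by rw [h2]
          _ = (K M ^ i * (L M ^ (r : ℤ) * K M ^ (a * t))) x₀ := by
              simp only [Equiv.Perm.mul_apply]
          _ = (K M ^ (i + a * t)) ((L M ^ (r : ℤ)) x₀) := by
              rw [← (hcomm _ _).eq, ← mul_assoc, ← zpow_add]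
              rfl
      rcases Nat.eq_zero_or_pos r with h0 | h0
      · rw [h0] at h3
        simp only [Nat.cast_zero, zpow_zero, Equiv.Perm.one_apply] at h3
        have h4 := hcol.inj 0 0 (i + a * t) (by
          simp only [zpow_zero, mul_one, Equiv.Perm.one_apply]
          rw [← h3, M.w1])
        simp only [zpow_zero, mul_one, Equiv.Perm.one_apply] at h4
        rw [h4] at h3
        exact M.n1 _ h3
      · apply (hne r h0 hr2 (-(i + a * t))).2
        rw [A1_apply, h3, ← Equiv.Perm.mul_apply, ← zpow_add, neg_add_cancel]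
        simp
    · exact h1
  -- at least three rows
  have hbase : ∀ l : ℤ, (L M ^ (N : ℤ)) ((K M ^ (-l)) x₀) =
      (K M ^ (a - 2 * l)) (M.a1 ((K M ^ (-l)) x₀)) := by
    intro l
    have h1 : (L M ^ (N : ℤ)) ((K M ^ (-l)) x₀) = (K M ^ (-l)) ((L M ^ (N : ℤ)) x₀) := by
      rw [← Equiv.Perm.mul_apply, ← (hcomm _ _).eq]
      rfl
    have h2 : M.a1 ((K M ^ (-l)) x₀) = (K M ^ l) (M.a1 x₀) := by
      have := congrArg (fun p : Equiv.Perm Ω => p x₀) (he (-l))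
      rw [neg_neg] at this
      exact this
    rw [h1, hrefl, h2, ← Equiv.Perm.mul_apply, ← Equiv.Perm.mul_apply, ← zpow_add, ← zpow_add]
    congr 2
    ring
  have hN3 : 3 ≤ N := by
    obtain ⟨l, hl⟩ : ∃ l : ℤ, a - 2 * l = 0 ∨ a - 2 * l = 1 := ⟨a / 2, by omega⟩
    have h1 := hbase l
    generalize (K M ^ (-l)) x₀ = y at h1
    have hKi : ∀ z, (K M)⁻¹ z = (F M)⁻¹ (L M z) := by
      intro z
      have : (K M)⁻¹ = (F M)⁻¹ * L M := by
        rw [K, mul_inv_rev, inv_inv]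
        exact ((commFL h).inv_left).symm.eq
      rw [this]
      rfl
    have hKa : ∀ z, K M (M.a1 z) = M.a1 ((K M)⁻¹ z) := by
      intro z
      have h2 : SemiconjBy (A1 M) (K M) (K M)⁻¹ := a1K
      have h3 := h2.inv_right.eq
      rw [inv_inv] at h3
      exact (congrArg (fun p : Equiv.Perm Ω => p z) h3).symm
    have hLa : ∀ z, (L M)⁻¹ (M.a1 z) = M.a1 ((F M)⁻¹ z) := by
      intro z
      have h2 : SemiconjBy (A1 M) (F M) (L M) := a1F
      exact (congrArg (fun p : Equiv.Perm Ω => p z) h2.inv_right.eq).symm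
    have hN1 : N ≠ 1 := by
      rintro rfl
      simp only [Nat.cast_one, zpow_one] at h1
      rcases hl with hl | hl
      · rw [hl, zpow_zero, Equiv.Perm.one_apply] at h1
        have h2 := adjL (M := M) y
        rw [h1, M.w1] at h2
        exact h2.ne rfl
      · rw [hl, zpow_one, hKa] at h1
        have h2 := adjF (M := M) ((K M)⁻¹ y)
        have h3 : F M ((K M)⁻¹ y) = L M y := by
          rw [hKi]
          exact (F M).apply_symm_apply _
        rw [h3, h1, M.w1] at h2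
        exact h2.ne rfl
    have hN2 : N ≠ 2 := by
      rintro rfl
      have h2 : L M (L M y) = (K M ^ (a - 2 * l)) (M.a1 y) := by
        rw [← h1, zpow_natCast, pow_two]
        rfl
      have h3 : L M y = (L M)⁻¹ ((K M ^ (a - 2 * l)) (M.a1 y)) := by
        rw [← h2]
        exact ((L M).symm_apply_apply _).symm
      rcases hl with hl | hl
      · rw [hl, zpow_zero, Equiv.Perm.one_apply, hLa] at h3
        apply nbrLFi h y
        rw [h3, M.w1]
      · rw [hl, zpow_one, hKa, hLa, hKi] at h3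
        apply nbrFF h ((F M)⁻¹ (L M y))
        have h4 : F M ((F M)⁻¹ (L M y)) = L M y := (F M).apply_symm_apply _
        rw [h4]
        nth_rw 1 [h3]
        rw [M.w1]
    omega
  -- the twisted band
  obtain ⟨j, c, hj, hc⟩ : ∃ j c : ℤ, -a = 2 * j + c ∧ (c = 0 ∨ c = -1) :=
    ⟨(-a + 1) / 2, -a - 2 * ((-a + 1) / 2), by omega, by omega⟩
  have hstepL : ∀ (k : ℕ) (m : ℤ), L M ((K M ^ m * L M ^ (k : ℤ)) x₀) =
      (K M ^ m * L M ^ ((k + 1 : ℕ) : ℤ)) x₀ := by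
    intro k m
    have hc : Commute (L M) (K M ^ m) := (commKL h).symm.zpow_right m
    rw [← Equiv.Perm.mul_apply, ← mul_assoc, hc.eq, mul_assoc, ← zpow_one_add]
    push_cast
    rw [add_comm]
  have hstepK : ∀ (k : ℕ) (m : ℤ), K M ((K M ^ m * L M ^ (k : ℤ)) x₀) =
      (K M ^ (m + 1) * L M ^ (k : ℤ)) x₀ := by
    intro k m
    rw [← Equiv.Perm.mul_apply, ← mul_assoc, ← zpow_one_add, add_comm]
  have hT : Twd G s N (fun k m => M.w ((K M ^ (m + j) * L M ^ (k : ℤ)) x₀)) c := by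
    refine ⟨⟨hr.s1, ?_, ?_, ?_⟩, hN3, ?_, ?_, ?_⟩
    · intro k hk k' hk' m m' hw
      obtain ⟨h1, h2⟩ := hr.inj k hk k' hk' (m + j) (m' + j) hw
      refine ⟨h1, ?_⟩
      have e1 : m' + j - (m + j) = m' - m := by ring
      rwa [e1] at h2
    · intro k hk m m' hd'
      refine hr.per k hk (m + j) (m' + j) ?_
      have e1 : m' + j - (m + j) = m' - m := by ring
      rwa [e1]
    · intro x
      obtain ⟨k, hk, m, hm⟩ := hr.sur x
      refine ⟨k, hk, m - j, ?_⟩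
      simp only [sub_add_cancel]
      exact hm
    · intro k m _
      have h1 := adjL (M := M) ((K M ^ (m + j) * L M ^ (k : ℤ)) x₀)
      rw [hstepL] at h1
      exact h1
    · intro k m _
      have h1 := adjF (M := M) ((K M ^ (m + j) * L M ^ (k : ℤ)) x₀)
      have hKL : ∀ z, F M z = K M (L M z) := fun z => by
        conv_lhs => rw [← KL]
        rfl
      rw [hKL, hstepL, hstepK] at h1
      have e1 : m + j + 1 = m + 1 + j := by ring
      rw [e1] at h1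
      exact h1
    · intro m
      have h1 := adjL (M := M) ((K M ^ (m + j) * L M ^ ((N - 1 : ℕ) : ℤ)) x₀)
      rw [hstepL] at h1
      have e1 : N - 1 + 1 = N := by omega
      rw [e1] at h1
      have h2 : M.w ((K M ^ (m + j) * L M ^ (N : ℤ)) x₀) =
          M.w ((K M ^ (c - m + j) * L M ^ ((0 : ℕ) : ℤ)) x₀) := by
        rw [Equiv.Perm.mul_apply, hrefl, ← Equiv.Perm.mul_apply, ← zpow_add]
        have h3 : (K M ^ (m + j + a)) (M.a1 x₀) = M.a1 ((K M ^ (-(m + j + a))) x₀) := by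
          have := congrArg (fun p : Equiv.Perm Ω => p x₀) (he (-(m + j + a)))
          rw [neg_neg] at this
          exact this.symm
        rw [h3, M.w1]
        simp only [Nat.cast_zero, zpow_zero, mul_one]
        congr 3
        omega
      rw [h2] at h1
      exact h1
  exact hT.ham hc

/-! ### Conclusion -/

theorem ham [Finite Ω] [DecidableEq W] [Fintype W] (h : Sq M) (hs : ∀ u, ∃ y, M.w y = u)
    (x₁ : Ω) : G.IsHamiltonian := by
  by_cases hD : ∃ x₀, InT M x₀ (M.a1 x₀)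
  · obtain ⟨x₀, hx⟩ := hD
    refine hamD h hs x₀ hx ?_
    intro y z hy hyz hw
    -- the glide reflection acts on all translates
    have h1 : InT M y (M.a1 y) := ((hy.symm h).trans h hx).trans h (hy.a1 h)
    have h1' := h1.symm h
    rcases vert h hw with h2 | h2 | h2 | h2 | h2 | h2 | h2 | h2
    · exact Or.inl h2
    · exact Or.inr h2
    · rw [h2] at hyz
      exact absurd (h1.trans h (hyz.a1 h)) (rot12 h y)
    · rw [h2] at hyz
      exact absurd hyz (rot12 h y)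
    · rw [h2] at hyz
      exact absurd hyz (rot21 h y)
    · rw [h2] at hyz
      have h3 := hyz.a1 h
      rw [M.i1] at h3
      exact absurd (h1.trans h h3) (rot21 h y)
    · rw [h2] at hyz
      exact absurd (h1.trans h (hyz.a1 h)) (rot h y)
    · rw [h2] at hyz
      exact absurd hyz (rot h y)
  · have hD' : ∀ x, ¬ InT M x (M.a1 x) := fun x hx => hD ⟨x, hx⟩
    -- a base point
    obtain ⟨x₀, hx₀⟩ : ∃ x₀, InT M x₀ (M.a2 x₀) ∨ ∀ y, ¬ InT M y (M.a2 y) := by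
      by_cases hA : ∃ x₀, InT M x₀ (M.a2 x₀)
      · obtain ⟨x₀, hx⟩ := hA
        exact ⟨x₀, Or.inl hx⟩
      · exact ⟨x₁, Or.inr fun y hy => hA ⟨y, hy⟩⟩
    refine hamQ h hs x₀ ?_
    intro y z hy hyz hw
    rcases vert h hw with h2 | h2 | h2 | h2 | h2 | h2 | h2 | h2
    · exact Or.inl h2
    · rw [h2] at hyz
      exact absurd hyz (hD' y)
    · exact Or.inr h2
    · rw [h2] at hyz
      exact absurd hyz (rot12 h y)
    · rw [h2] at hyz
      exact absurd hyz (rot21 h y)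
    · rw [h2] at hyz
      exfalso
      rcases hx₀ with hx | hx
      · have h1 : InT M y (M.a2 y) := ((hy.symm h).trans h hx).trans h (hy.a2 h)
        have h3 := h1.trans h (hyz.a2 h)
        rw [← h.r12] at h3
        exact rot h y h3
      · have h3 := hyz.a1 h
        rw [M.i1] at h3
        exact hx _ h3
    · rw [h2] at hyz
      have h3 := hyz.a2 h
      rw [M.i2] at h3
      exact absurd h3 (hD' _)
    · rw [h2] at hyz
      exact absurd hyz (rot h y)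

end KSQ
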